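import Pool.Agent.TH613.LP.Rel
import Mathlib.Algebra.MonoidAlgebra.MapDomain
import Mathlib.GroupTheory.Torsion

/-!
# Norm relations with integral coefficients and topologies on modules
-/

set_option autoImplicit false

namespace Pool.Agent.TH613.LP

open Pool.Agent.TH613.ZK

variable {A : Type} [Group A]

/-- the norm element with integral coefficients -/
noncomputable def normZ (C : Subgroup A) : MonoidAlgebra ℤ A :=
  ∑ᶠ g : C, MonoidAlgebra.single (g : A) (1 : ℤ)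

/-- `ℤ[A] → ℚ[A]` -/
noncomputable def toQ (A : Type) [Group A] : MonoidAlgebra ℤ A →+* MonoidAlgebra ℚ A :=
  MonoidAlgebra.mapRingHom A (Int.castRingHom ℚ)

theorem toQ_injective : Function.Injective (toQ A) := by
  intro x y h
  apply MonoidAlgebra.coeff_injective
  ext g
  have h1 := congrArg (fun z => z.coeff g) h
  simp only [toQ, MonoidAlgebra.coeff_mapRingHom] at h1
  simpa using h1

theorem toQ_normZ [Finite A] (C : Subgroup A) : toQ A (normZ C) = normElt C := by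
  let _ := Fintype.ofFinite C
  rw [normZ, normElt, finsum_eq_sum_of_fintype, finsum_eq_sum_of_fintype, map_sum]
  apply Finset.sum_congr rfl
  intro g _
  simp [toQ, MonoidAlgebra.mapRingHom_single]

theorem toQ_single (a : A) (n : ℤ) :
    toQ A (MonoidAlgebra.single a n) = MonoidAlgebra.single a (n : ℚ) := by
  simp [toQ, MonoidAlgebra.mapRingHom_single]

theorem exists_int [Finite A] {𝓕 : Subgroup A → Prop} (G : AddSubgroup (MonoidAlgebra ℤ A))
    (hG : ∀ (C : Subgroup A) (a b : A), 𝓕 C →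
      MonoidAlgebra.single a 1 * normZ C * MonoidAlgebra.single b 1 ∈ G)
    {x : MonoidAlgebra ℚ A} (hx : x ∈ relIdeal 𝓕) :
    ∃ m : ℕ, 0 < m ∧ ∃ y ∈ G, toQ A y = (m : ℚ) • x := by
  unfold relIdeal at hx
  induction hx using Submodule.span_induction with
  | mem x hx =>
    obtain ⟨C, a, b, hC, rfl⟩ := hx
    refine ⟨1, one_pos, _, hG C a b hC, ?_⟩
    rw [map_mul, map_mul, toQ_normZ, toQ_single, toQ_single]
    simp
  | zero => exact ⟨1, one_pos, 0, G.zero_mem, by simp⟩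
  | add x y _ _ hx hy =>
    obtain ⟨m, hm, u, hu, e⟩ := hx
    obtain ⟨n, hn, v, hv, e'⟩ := hy
    refine ⟨m * n, Nat.mul_pos hm hn, n • u + m • v,
      G.add_mem (G.nsmul_mem hu n) (G.nsmul_mem hv m), ?_⟩
    rw [map_add, map_nsmul, map_nsmul, e, e', ← Nat.cast_smul_eq_nsmul ℚ,
      ← Nat.cast_smul_eq_nsmul ℚ, smul_smul, smul_smul, smul_add]
    push_cast
    rw [mul_comm (n : ℚ) m]
  | smul c x _ hx =>
    obtain ⟨m, hm, u, hu, e⟩ := hx
    refine ⟨m * c.den, Nat.mul_pos hm c.den_pos, c.num • u, G.zsmul_mem hu _, ?_⟩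
    rw [map_zsmul, e, ← Int.cast_smul_eq_zsmul ℚ, smul_smul, smul_smul]
    congr 1
    push_cast
    have : (c.den : ℚ) * c = c.num := by
      rw [mul_comm]; exact Rat.mul_den_eq_num c
    rw [mul_assoc, this, mul_comm]

theorem exists_nat_mem [Finite A] {𝓕 : Subgroup A → Prop} (G : AddSubgroup (MonoidAlgebra ℤ A))
    (hG : ∀ (C : Subgroup A) (a b : A), 𝓕 C →
      MonoidAlgebra.single a 1 * normZ C * MonoidAlgebra.single b 1 ∈ G)
    (h : 1 ∈ relIdeal 𝓕) : ∃ m : ℕ, 0 < m ∧ (m : MonoidAlgebra ℤ A) ∈ G := by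
  obtain ⟨m, hm, y, hy, e⟩ := exists_int G hG h
  refine ⟨m, hm, ?_⟩
  have : y = (m : MonoidAlgebra ℤ A) := by
    apply toQ_injective
    rw [e, map_natCast, Nat.cast_smul_eq_nsmul, nsmul_one]
  rwa [← this]

section Module

variable {M : Type} [AddCommGroup M] (ρ : A →* Module.End ℤ M)

/-- the action of the group ring -/
noncomputable def act (x : MonoidAlgebra ℤ A) : Module.End ℤ M :=
  MonoidAlgebra.lift ℤ (Module.End ℤ M) A ρ x

/-- the elements of `ℤ[A]` which map small elements to elements of `T N` -/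
def good (U T : ℕ → AddSubgroup M) (hU : ∀ i j, i ≤ j → U j ≤ U i) :
    AddSubgroup (MonoidAlgebra ℤ A) where
  carrier := {x | ∀ N, ∃ k, ∀ u ∈ U k, act ρ x u ∈ T N}
  zero_mem' := by
    intro N
    refine ⟨0, fun u _ => ?_⟩
    rw [act, map_zero]
    exact (T N).zero_mem
  add_mem' := by
    intro x y hx hy N
    obtain ⟨k, hk⟩ := hx N
    obtain ⟨l, hl⟩ := hy N
    refine ⟨max k l, fun u hu => ?_⟩
    rw [act, map_add]
    exact (T N).add_mem (hk u (hU _ _ (le_max_left _ _) hu)) (hl u (hU _ _ (le_max_right _ _) hu))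
  neg_mem' := by
    intro x hx N
    obtain ⟨k, hk⟩ := hx N
    refine ⟨k, fun u hu => ?_⟩
    rw [act, map_neg]
    exact (T N).neg_mem (hk u hu)

theorem norm_argument [Finite A] (U T : ℕ → AddSubgroup M) (hU : ∀ i j, i ≤ j → U j ≤ U i)
    (hUa : ∀ k a, ∀ u ∈ U k, ρ a u ∈ U k) (hTa : ∀ N a, ∀ u ∈ T N, ρ a u ∈ T N)
    {𝓕 : Subgroup A → Prop}
    (hnorm : ∀ C : Subgroup A, 𝓕 C → ∀ N, ∃ k, ∀ u ∈ U k, ∑ᶠ c : C, ρ c u ∈ T N)
    (h : 1 ∈ relIdeal 𝓕) : ∃ m : ℕ, 0 < m ∧ ∀ N, ∃ k, ∀ u ∈ U k, m • u ∈ T N := by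
  obtain ⟨m, hm, hmem⟩ := exists_nat_mem (good ρ U T hU) (by
    intro C a b hC N
    obtain ⟨k, hk⟩ := hnorm C hC N
    refine ⟨k, fun u hu => ?_⟩
    rw [act, map_mul, map_mul, MonoidAlgebra.lift_single, MonoidAlgebra.lift_single, one_smul,
      one_smul]
    change ρ a ((MonoidAlgebra.lift ℤ (Module.End ℤ M) A ρ (normZ C)) (ρ b u)) ∈ T N
    apply hTa
    have h1 := hk (ρ b u) (hUa k b u hu)
    let _ := Fintype.ofFinite C
    rw [normZ, finsum_eq_sum_of_fintype, map_sum, LinearMap.sum_apply]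
    rw [finsum_eq_sum_of_fintype] at h1
    convert h1 using 2 with c
    rw [MonoidAlgebra.lift_single, one_smul]) h
  refine ⟨m, hm, fun N => ?_⟩
  obtain ⟨k, hk⟩ := hmem N
  refine ⟨k, fun u hu => ?_⟩
  have := hk u hu
  rw [act, map_natCast] at this
  convert this using 1
  simp

/-- the elements which are in `p ^ N M` up to torsion -/
def tor (M : Type) [AddCommGroup M] (p N : ℕ) : AddSubgroup M where
  carrier := {u | ∃ t w : M, u = t + p ^ N • w ∧ ∃ k : ℕ, 0 < k ∧ k • t = 0}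
  zero_mem' := ⟨0, 0, by simp, 1, one_pos, by simp⟩
  add_mem' := by
    rintro _ _ ⟨t, w, rfl, k, hk, ht⟩ ⟨t', w', rfl, k', hk', ht'⟩
    refine ⟨t + t', w + w', by rw [smul_add]; abel, k * k', Nat.mul_pos hk hk', ?_⟩
    rw [smul_add, mul_smul k k' t', ht', smul_zero, add_zero, mul_comm, mul_smul, ht, smul_zero]
  neg_mem' := by
    rintro _ ⟨t, w, rfl, k, hk, ht⟩
    refine ⟨-t, -w, by rw [smul_neg]; abel, k, hk, by rw [smul_neg, ht, neg_zero]⟩

theorem tor_map {M M' : Type} [AddCommGroup M] [AddCommGroup M'] (f : M →+ M') {p N : ℕ} {u : M}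
    (hu : u ∈ tor M p N) : f u ∈ tor M' p N := by
  obtain ⟨t, w, rfl, k, hk, ht⟩ := hu
  refine ⟨f t, f w, by rw [map_add, map_nsmul], k, hk, ?_⟩
  rw [← map_nsmul, ht, map_zero]

/-- removal of the factor `m` -/
theorem remove_factor {p : ℕ} (hp : p.Prime) {m : ℕ} (hm : 0 < m) :
    ∃ v : ℕ, ∀ (N : ℕ) (u t w : M), m • u = t + p ^ (N + v) • w → (∃ k : ℕ, 0 < k ∧ k • t = 0) →
      ∃ t' w' : M, u = t' + p ^ N • w' ∧ ∃ k : ℕ, 0 < k ∧ k • t' = 0 := by
  obtain ⟨v, m', hm', rfl⟩ := Nat.exists_eq_pow_mul_and_not_dvd hm.ne' p hp.ne_one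
  refine ⟨v, ?_⟩
  intro N u t w h ht
  obtain ⟨k, hk, hkt⟩ := ht
  have hcop : Nat.Coprime m' (p ^ N) := by
    apply Nat.Coprime.pow_right
    exact (Nat.coprime_comm.mp ((Nat.Prime.coprime_iff_not_dvd hp).mpr hm'))
  have hb := Nat.gcd_eq_gcd_ab m' (p ^ N)
  rw [hcop.gcd_eq_one] at hb
  set a := Nat.gcdA m' (p ^ N) with ha
  set b := Nat.gcdB m' (p ^ N) with hb'
  have hu : u = a • (m' • u) + p ^ N • (b • u) := by
    have e1 : a • (m' • u) = (a * (m' : ℤ)) • u := by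
      rw [mul_smul, natCast_zsmul]
    have e2 : p ^ N • (b • u) = (b * ((p ^ N : ℕ) : ℤ)) • u := by
      rw [mul_comm, mul_smul, natCast_zsmul]
    rw [e1, e2, ← add_smul]
    have : a * (m' : ℤ) + b * ((p ^ N : ℕ) : ℤ) = 1 := by
      push_cast at hb ⊢
      linarith
    rw [this, one_smul]
  refine ⟨a • (m' • u - p ^ N • w), a • w + b • u, ?_, k * p ^ v, ?_, ?_⟩
  · rw [smul_sub, smul_add]
    nth_rewrite 1 [hu]
    rw [smul_comm a (p ^ N) w]
    abel
  · exact Nat.mul_pos hk (pow_pos hp.pos v)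
  · have e3 : p ^ v • (m' • u - p ^ N • w) = t := by
      rw [smul_sub, smul_smul, smul_smul, h, ← pow_add, add_comm v N]
      abel
    rw [smul_comm, mul_smul, e3, hkt, smul_zero]

theorem sum_smul_nsmul {M : Type} [AddCommGroup M] {n : ℕ} (e : ℕ) (c : Fin n → ℤ) (η : Fin n → M) :
    ∑ i, c i • (e • η i) = e • ∑ i, c i • η i := by
  rw [Finset.smul_sum]
  exact Finset.sum_congr rfl fun i _ => smul_comm _ _ _

theorem sum_mul_smul {M : Type} [AddCommGroup M] {n : ℕ} (w : ℕ) (c : Fin n → ℤ) (η : Fin n → M) :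
    ∑ i, ((w : ℤ) * c i) • η i = w • ∑ i, c i • η i := by
  rw [Finset.smul_sum]
  refine Finset.sum_congr rfl fun i _ => ?_
  rw [mul_smul, natCast_zsmul]

theorem nsmul_eq_of_sub {M : Type} [AddCommGroup M] {w : ℕ} {a b : M} (h : w • (a - b) = 0) :
    w • a = w • b := by
  rw [smul_sub, sub_eq_zero] at h
  exact h

end Module

end Pool.Agent.TH613.LP
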