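import Pool.Agent.TH613.LP.RealFin

/-!
# Leopoldt's conjecture: reduction to irreducible fields, by correspondences
-/

set_option autoImplicit false

namespace Pool.Agent.TH613.LP

open NumberField Pool.Agent.TH613.ZK

open Classical in
/-- The function `σ ↦ ∑ Ψ(τ)` on the embeddings of `K` into `ℂ`; the sum is over the embeddings `τ`
of the overfield `M`, with `a : K → M`, which extend `σ`. -/
noncomputable def push {K M : Type} [Field K] [Field M] [NumberField M] (a : K →+* M)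
    (Ψ : (M →+* ℂ) → ℚ) (σ : K →+* ℂ) : ℚ :=
  ∑ τ ∈ Finset.univ.filter (fun τ : M →+* ℂ => τ.comp a = σ), Ψ τ

/-- Every rational function on the set of embeddings of `K` into `ℂ` which is invariant under
complex conjugation is a sum of functions `push a Ψ`, where `Ψ` depends only on the restrictions of
the embeddings of `M` to a field in the set `𝓕` of subfields of `M`. -/
def DecomposesInto {K M : Type} [Field K] [Field M] [NumberField M] (a : K →+* M)
    (𝓕 : Set (IntermediateField ℚ M)) : Prop :=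
  ∀ φ : (K →+* ℂ) → ℚ, (∀ σ : K →+* ℂ, φ ((starRingEnd ℂ).comp σ) = φ σ) →
    φ ∈ Submodule.span ℚ {ψ | ∃ F ∈ 𝓕, ∃ Ψ : (M →+* ℂ) → ℚ, DependsOn F Ψ ∧ ψ = push a Ψ}

/-- `K` is a subfield of a Galois field `M` such that `K` decomposes into the subfields of `M` of
degree smaller than the degree of `K`. -/
def Reducible (K : Type) [Field K] [NumberField K] : Prop :=
  ∃ (M : Type) (_ : Field M) (_ : NumberField M) (a : K →+* M), IsGalois ℚ M ∧
    DecomposesInto a {F | Module.finrank ℚ F < Module.finrank ℚ K}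

section

variable {K L : Type} [Field K] [NumberField K] [Field L] [NumberField L]

open Classical in
theorem sum_fiber {A : Type} [AddCommMonoid A] (hG : IsGalois ℚ L) (f : K →+* L) (j : L →+* ℂ)
    (X : (L →+* ℂ) → A) (γ : L ≃ₐ[ℚ] L) :
    ∑ τ ∈ Finset.univ.filter (fun τ : L →+* ℂ => τ.comp f = emb f j γ), X τ =
      ∑ h ∈ Uf f, X (emb (RingHom.id L) j (γ * h)) := by
  symm
  refine Finset.sum_bij (fun h _ => emb (RingHom.id L) j (γ * h)) ?_ ?_ ?_ (fun _ _ => rfl)
  · intro h hh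
    rw [Uf, Finset.mem_filter] at hh
    rw [Finset.mem_filter]
    refine ⟨Finset.mem_univ _, ?_⟩
    ext x
    change j (γ (h (f x))) = j (γ (f x))
    rw [hh.2 x]
  · intro h _ h' _ e
    ext x
    have h1 := DFunLike.congr_fun e x
    have h2 : γ (h x) = γ (h' x) := j.injective h1
    exact γ.injective h2
  · intro τ hτ
    rw [Finset.mem_filter] at hτ
    obtain ⟨c, hc⟩ := exists_gal hG (j.comp (γ : L →+* L)) τ
    refine ⟨c, ?_, ?_⟩
    · rw [Uf, Finset.mem_filter]
      refine ⟨Finset.mem_univ _, fun x => ?_⟩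
      have h1 := hc (f x)
      have h2 := DFunLike.congr_fun hτ.2 x
      have h3 : j (γ (c (f x))) = j (γ (f x)) := h1.trans h2
      exact γ.injective (j.injective h3)
    · ext x
      exact hc x

theorem norm_down {p : ℕ} (hG : IsGalois ℚ L) (f : K →+* L) {N : ℕ} {t : Additive (𝓞 L)ˣ}
    (ht : t ∈ T L p N) : ∃ v ∈ T K p N, um f v = ∑ h ∈ Uf f, rho L h t := by
  classical
  have hfix : ∀ y : Additive (𝓞 L)ˣ, ∀ c : L ≃ₐ[ℚ] L, (∀ x : K, c (f x) = f x) →
      rho L c (∑ h ∈ Uf f, rho L h y) = ∑ h ∈ Uf f, rho L h y := by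
    intro y c hc
    rw [map_sum]
    refine Finset.sum_bij (fun h _ => c * h) ?_ ?_ ?_ ?_
    · intro h hh
      rw [Uf, Finset.mem_filter] at hh ⊢
      refine ⟨Finset.mem_univ _, fun x => ?_⟩
      rw [AlgEquiv.mul_apply, hh.2 x, hc x]
    · intro h _ h' _ e
      exact mul_left_cancel e
    · intro h hh
      rw [Uf, Finset.mem_filter] at hh
      refine ⟨c⁻¹ * h, ?_, mul_inv_cancel_left c h⟩
      rw [Uf, Finset.mem_filter]
      refine ⟨Finset.mem_univ _, fun x => ?_⟩
      rw [AlgEquiv.mul_apply, hh.2 x]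
      have h1 : (c⁻¹ * c) (f x) = f x := by rw [inv_mul_cancel]; rfl
      rw [AlgEquiv.mul_apply, hc x] at h1
      exact h1
    · intro h _
      rw [map_mul]
      rfl
  have ht' := (mem_tor_iff.mp ht)
  obtain ⟨w, hw⟩ := ht'
  obtain ⟨v, hv⟩ := descend_gal hG f _ (hfix t)
  obtain ⟨w', hw'⟩ := descend_gal hG f _ (hfix w)
  refine ⟨v, mem_tor_iff.mpr ⟨w', ?_⟩, hv⟩
  have h1 : um f (v - p ^ N • w') ∈ tors (Additive (𝓞 L)ˣ) := by
    rw [map_sub, map_nsmul, hv, hw', ← Finset.sum_nsmul, ← Finset.sum_sub_distrib]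
    refine AddSubgroup.sum_mem _ fun h _ => ?_
    rw [← map_nsmul, ← map_sub]
    exact tors_map (um ((h : L ≃ₐ[ℚ] L) : L →+* L)) hw
  obtain ⟨k', hk', hk''⟩ := h1
  refine ⟨k', hk', um_injective f ?_⟩
  rw [map_nsmul, hk'', map_zero]

open Classical in
theorem redL_push {p : ℕ} (hp : p.Prime) (hG : IsGalois ℚ L) (f : K →+* L) (j : L →+* ℂ)
    {F : IntermediateField ℚ L} (hF : Top F p) {Ψ : (L →+* ℂ) → ℚ} (hΨ : DependsOn F Ψ) :
    RedL p f j (push f Ψ) := by
  obtain ⟨m, hm, X, hX, hmain⟩ := redL_of_dependsOn hp hG (RingHom.id L) j hF hΨ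
  refine ⟨m, hm, fun σ => ∑ τ ∈ Finset.univ.filter (fun τ : L →+* ℂ => τ.comp f = σ), X τ, ?_,
    fun N => ?_⟩
  · intro σ
    rw [push, Finset.mul_sum, Int.cast_sum]
    exact Finset.sum_congr rfl fun τ _ => hX τ
  · obtain ⟨k, hk⟩ := hmain N
    refine ⟨k, fun u hu => ?_⟩
    obtain ⟨t, ht, e⟩ := hk u hu
    have hid : um (RingHom.id L) t = t := by
      apply unit_ext
      rw [um_apply]
      rfl
    rw [hid] at e
    obtain ⟨v, hvT, hv⟩ := norm_down hG f ht
    refine ⟨v, hvT, ?_⟩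
    rw [hv, e, pr, pr]
    beta_reduce
    have h1 : ∀ γ : L ≃ₐ[ℚ] L,
        (∑ τ ∈ Finset.univ.filter (fun τ : L →+* ℂ => τ.comp f = emb f j γ), X τ) •
          rho L γ⁻¹ u = ∑ h ∈ Uf f, X (emb (RingHom.id L) j (γ * h)) • rho L γ⁻¹ u := by
      intro γ
      rw [sum_fiber hG]
      have hgen : ∀ (M : Type) [AddCommGroup M] (s : Finset (L ≃ₐ[ℚ] L)) (x : (L ≃ₐ[ℚ] L) → ℤ)
          (z : M), (∑ h ∈ s, x h) • z = ∑ h ∈ s, x h • z :=
        fun M _ s x z => Finset.sum_smul
      exact hgen _ _ _ _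
    rw [Finset.sum_congr rfl (fun γ _ => h1 γ), Finset.sum_comm]
    refine Finset.sum_congr rfl fun h _ => ?_
    rw [map_sum]
    symm
    refine Fintype.sum_equiv (Equiv.mulRight h) _ _ ?_
    intro γ
    rw [map_zsmul]
    congr 1
    have h2 : rho L h (rho L ((Equiv.mulRight h) γ)⁻¹ u) = rho L (h * (γ * h)⁻¹) u := by
      rw [map_mul]
      rfl
    rw [h2, mul_inv_rev, mul_inv_cancel_left]

/-- If `K` decomposes into the fields `F`, Leopoldt's conjecture for `K` follows. -/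
theorem top_of_decomposesInto {p : ℕ} (hp : p.Prime) (hG : IsGalois ℚ L) (f : K →+* L)
    {𝓕 : Set (IntermediateField ℚ L)} (h : DecomposesInto f 𝓕) (hF : ∀ F ∈ 𝓕, Top F p) :
    Top K p := by
  obtain ⟨j⟩ : Nonempty (L →+* ℂ) := inferInstance
  refine top_of_redL hp hG f j fun φ hφ => redL_of_span f j ?_ (h φ hφ)
  rintro ψ ⟨F, hF', Ψ, hΨ, rfl⟩
  exact redL_push hp hG f j (hF F hF') hΨ

theorem exists_extension (f : K →+* L) (σ : K →+* ℂ) : ∃ τ : L →+* ℂ, τ.comp f = σ := by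
  let _ : Algebra K L := f.toAlgebra
  have h1 : Algebra.IsAlgebraic K L := by
    have : IsScalarTower ℚ K L := IsScalarTower.of_algebraMap_eq fun q => by
      rw [eq_ratCast, eq_ratCast]
      exact (map_ratCast f q).symm
    exact Algebra.IsAlgebraic.tower_top (K := ℚ) K
  exact ⟨ComplexEmbedding.lift L σ, ComplexEmbedding.lift_comp_algebraMap L σ⟩

theorem reducible_of_decomposableBy (h : DecomposableBy K {F | F ≠ ⊤}) : Reducible K := by
  classical
  obtain ⟨L, _, _, hG, ⟨f⟩⟩ := exists_galois K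
  obtain ⟨j⟩ : Nonempty (L →+* ℂ) := inferInstance
  refine ⟨L, inferInstance, inferInstance, f, hG, fun φ hφ => ?_⟩
  have h1 := h φ hφ
  refine (Submodule.span_le.mpr ?_) h1
  rintro ψ ⟨F, hF, hψ⟩
  have hcomm : ∀ q : ℚ, f (algebraMap ℚ K q) = algebraMap ℚ L q := fun q => by
    rw [eq_ratCast, eq_ratCast, map_ratCast]
  let f' : K →ₐ[ℚ] L := { f with commutes' := hcomm }
  have hUf : 0 < (Uf f).card := by
    apply Finset.card_pos.mpr
    refine ⟨1, ?_⟩
    rw [Uf, Finset.mem_filter]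
    exact ⟨Finset.mem_univ _, fun x => rfl⟩
  have h2 : ψ = ((Uf f).card : ℚ)⁻¹ • push f (fun τ : L →+* ℂ => ψ (τ.comp f)) := by
    funext σ
    obtain ⟨τ, hτ⟩ := exists_extension f σ
    obtain ⟨γ, hγ⟩ := exists_gal hG j τ
    have hσ : σ = emb f j γ := by
      rw [← hτ]
      ext x
      exact (hγ (f x)).symm
    rw [Pi.smul_apply, push]
    have h3 : ∑ τ ∈ Finset.univ.filter (fun τ : L →+* ℂ => τ.comp f = σ), ψ (τ.comp f) =
        ∑ τ ∈ Finset.univ.filter (fun τ : L →+* ℂ => τ.comp f = σ), ψ σ := by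
      refine Finset.sum_congr rfl fun τ hτ => ?_
      rw [(Finset.mem_filter.mp hτ).2]
    rw [h3, hσ, sum_fiber hG f j (fun _ => ψ (emb f j γ)) γ, Finset.sum_const, nsmul_eq_mul,
      smul_eq_mul, inv_mul_cancel_left₀ (by exact_mod_cast hUf.ne')]
  rw [h2]
  refine Submodule.smul_mem _ _ (Submodule.subset_span ⟨F.map f', ?_, _, ?_, rfl⟩)
  · have h3 := LinearEquiv.finrank_eq (IntermediateField.equivMap F f').toLinearEquiv
    change Module.finrank ℚ (F.map f') < Module.finrank ℚ K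
    rw [← h3]
    exact finrank_lt_of_ne_top hF
  · intro τ τ' hτ
    apply hψ
    intro x hx
    exact hτ (f x) ⟨x, hx, rfl⟩

end

theorem all_of_irred {p : ℕ} (hp : p.Prime)
    (h : ∀ (K : Type) [Field K] [NumberField K], ¬ Reducible K → Top K p)
    (n : ℕ) :
    ∀ (K : Type) [Field K] [NumberField K], Module.finrank ℚ K = n → Top K p := by
  induction n using Nat.strong_induction_on with
  | _ n ih =>
    intro K _ _ hn
    by_cases hN : Reducible K
    · obtain ⟨M, _, _, a, hG, hM⟩ := hN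
      exact top_of_decomposesInto hp hG a hM fun F hF => ih _ (hn ▸ hF) F rfl
    · exact h K hN

end Pool.Agent.TH613.LP
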