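import Pool.Agent.TH613.LP.Corr

/-!
# Leopoldt's conjecture: reduction to irreducible fields
-/

set_option autoImplicit false

namespace Pool.Agent.TH613.LP

open NumberField Pool.Agent.TH613.ZK

/-- `K` is decomposable by its proper subfields which are Galois over `ℚ`. -/
def GaloisReducible (K : Type) [Field K] [NumberField K] : Prop :=
  DecomposableBy K {F | F ≠ ⊤ ∧ IsGalois ℚ F}

/-- All subgroups of order `q r`, with primes `q` and `r`, are cyclic, and there is at most one
element of order two. -/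
def TightGroup (A : Type) [Group A] : Prop :=
  (∀ q r : ℕ, q.Prime → r.Prime → ∀ B : Subgroup A, Nat.card B = q * r → IsCyclic B) ∧
    ∀ z w : A, z ≠ 1 → w ≠ 1 → z * z = 1 → w * w = 1 → z = w

/-- All subgroups of the centre of order `q r`, with primes `q` and `r`, are cyclic. -/
def TightCentre (A : Type) [Group A] : Prop :=
  ∀ q r : ℕ, q.Prime → r.Prime → ∀ B : Subgroup A, B ≤ Subgroup.center A →
    Nat.card B = q * r → IsCyclic B

theorem leopoldt_of_decomposesInto (p : ℕ) [hp : Fact p.Prime] (K M : Type) [Field K]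
    [NumberField K] [Field M] [NumberField M] (a : K →+* M) (𝓕 : Set (IntermediateField ℚ M))
    (hG : IsGalois ℚ M) (h : DecomposesInto a 𝓕) (hF : ∀ F ∈ 𝓕, Leopoldt F p) : Leopoldt K p :=
  leopoldt_of_top (top_of_decomposesInto hp.out hG a h fun F hF' => top_of_leopoldt (hF F hF'))

theorem main4 (p : ℕ) [hp : Fact p.Prime] :
    List.TFAE [
      ∀ (K : Type) [Field K] [NumberField K], Leopoldt K p,
      ∀ (K : Type) [Field K] [NumberField K], ¬ Reducible K → Leopoldt K p,
      ∀ (K : Type) [Field K] [NumberField K], IsGalois ℚ K → ¬ GaloisReducible K →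
        Leopoldt K p] := by
  tfae_have 1 → 2 := fun h K _ _ _ => h K
  tfae_have 1 → 3 := fun h K _ _ _ _ => h K
  tfae_have 2 → 1 := by
    intro h K _ _
    exact leopoldt_of_top (all_of_irred hp.out
      (fun K _ _ hN => top_of_leopoldt (h K hN)) _ K rfl)
  tfae_have 3 → 1 := ((main3 p).out 0 2).mpr
  tfae_finish

theorem props_of_irred (K : Type) [Field K] [NumberField K] (h : ¬ Reducible K) :
    ¬ IsCMField K ∧ (IsGalois ℚ K → IsTotallyReal K) ∧ ¬ HasNormRelation (K ≃ₐ[ℚ] K) ∧
      TightGroup (K ≃ₐ[ℚ] K) := by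
  have h : ¬ DecomposableBy K {F | F ≠ ⊤} := fun h' => h (reducible_of_decomposableBy h')
  have hA : ¬ HasNormRelation (K ≃ₐ[ℚ] K) := fun hA => h (decomposableBy_of_normRelation hA)
  refine ⟨fun hCM => h (decomposableBy_of_isCM hCM (fixedField_ne_top (zpowers_cc_ne_bot hCM))),
    fun hG => ?_, hA, fun q r hq hr B hB => ?_, fun z w hz1 hw1 hz hw => ?_⟩
  · by_contra hR
    exact h (decomposableBy_of_not_real hG hR)
  · by_contra hcyc
    exact hA (hasNormRelation hq hr B hB hcyc)
  · by_contra hne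
    exact hA (hasNormRelation_of_involutions hz hw hz1 hw1 hne)

theorem props_of_galoisIrred (K : Type) [Field K] [NumberField K] (hG : IsGalois ℚ K)
    (h : ¬ GaloisReducible K) :
    ¬ IsCMField K ∧ ¬ HasNormalNormRelation (K ≃ₐ[ℚ] K) ∧ TightCentre (K ≃ₐ[ℚ] K) := by
  have hA : ¬ HasNormalNormRelation (K ≃ₐ[ℚ] K) :=
    fun hA => h (decomposableBy_of_normalNormRelation hG hA)
  refine ⟨fun hCM => h (decomposableBy_of_isCM hCM
    ⟨fixedField_ne_top (zpowers_cc_ne_bot hCM), ?_⟩), hA, fun q r hq hr B hZ hB => ?_⟩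
  · have h1 := zpowers_cc_normal hCM
    exact IsGalois.of_fixedField_normal_subgroup _
  · by_contra hcyc
    exact hA (hasNormalNormRelation hq hr B hZ hB hcyc)

end Pool.Agent.TH613.LP
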