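import Pool.Agent.TH613.LP.Final

/-!
# Leopoldt's conjecture and decomposable number fields
-/

set_option autoImplicit false

namespace Pool.Agent.TH613.LP

open NumberField Pool.Agent.TH613.ZK

/-- The function `ψ` on the embeddings of `K` into `ℂ` depends only on the restrictions of the
embeddings to the subfield `F`. -/
def DependsOn {K : Type} [Field K] [NumberField K] (F : IntermediateField ℚ K)
    (ψ : (K →+* ℂ) → ℚ) : Prop :=
  ∀ σ τ : K →+* ℂ, (∀ x ∈ F, σ x = τ x) → ψ σ = ψ τ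

/-- Every rational function on the set of embeddings of `K` into `ℂ` is a sum of functions each of
which depends only on the restrictions of the embeddings to a proper subfield of `K`. -/
def Decomposable (K : Type) [Field K] [NumberField K] : Prop :=
  ∀ φ : (K →+* ℂ) → ℚ,
    φ ∈ Submodule.span ℚ {ψ | ∃ F : IntermediateField ℚ K, F ≠ ⊤ ∧ DependsOn F ψ}

section Step

variable {K L : Type} [Field K] [NumberField K] [Field L] [NumberField L]

theorem descend_gal (hG : IsGalois ℚ L) (f : K →+* L) (w : Additive (𝓞 L)ˣ)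
    (hw : ∀ c : L ≃ₐ[ℚ] L, (∀ x : K, c (f x) = f x) → rho L c w = w) :
    ∃ v : Additive (𝓞 K)ˣ, um f v = w := by
  have hcomm : ∀ q : ℚ, f (algebraMap ℚ K q) = algebraMap ℚ L q := fun q => by
    rw [eq_ratCast, eq_ratCast, map_ratCast]
  let f' : K →ₐ[ℚ] L := { f with commutes' := hcomm }
  let H : Subgroup (L ≃ₐ[ℚ] L) := f'.fieldRange.fixingSubgroup
  have hfix : ∀ c ∈ H, ∀ x : K, c (f x) = f x := by
    intro c hc x
    exact (IntermediateField.mem_fixingSubgroup_iff _ c).mp hc (f x) ⟨x, rfl⟩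
  have hrange : ∀ y : L, (∀ c ∈ H, c y = y) → ∃ x : K, f x = y := by
    intro y hy
    have h1 : y ∈ IntermediateField.fixedField H := by
      rw [IntermediateField.mem_fixedField_iff]
      exact hy
    rw [IsGalois.fixedField_fixingSubgroup] at h1
    obtain ⟨x, hx⟩ := h1
    exact ⟨x, hx⟩
  apply descendG
  · apply hrange
    intro c hc
    have h2 := um_apply ((c : L ≃ₐ[ℚ] L) : L →+* L) w
    rw [← rho_apply, hw c (hfix c hc)] at h2
    exact h2.symm
  · apply hrange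
    intro c hc
    have h2 := um_apply ((c : L ≃ₐ[ℚ] L) : L →+* L) (-w)
    rw [← rho_apply, map_neg, hw c (hfix c hc)] at h2
    exact h2.symm

/-- the embedding `j γ f` -/
def emb (f : K →+* L) (j : L →+* ℂ) (γ : L ≃ₐ[ℚ] L) : K →+* ℂ :=
  j.comp ((γ : L →+* L).comp f)

open Classical in
/-- `∑ Ψ(j γ f) γ⁻¹ u`, `γ ∈ Gal(L / ℚ)` -/
noncomputable def proj (f : K →+* L) (j : L →+* ℂ) (Ψ : (K →+* ℂ) → ℤ) (u : Additive (𝓞 K)ˣ) :
    Additive (𝓞 L)ˣ :=
  ∑ γ : L ≃ₐ[ℚ] L, Ψ (emb f j γ) • rho L γ⁻¹ (um f u)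

/-- the property of functions which is proved by induction -/
def Red (p : ℕ) (f : K →+* L) (j : L →+* ℂ) (ψ : (K →+* ℂ) → ℚ) : Prop :=
  ∃ m : ℕ, 0 < m ∧ ∃ Ψ : (K →+* ℂ) → ℤ, (∀ σ, (Ψ σ : ℚ) = m * ψ σ) ∧
    ∀ N, ∃ k, ∀ u ∈ U K p k, ∃ t ∈ T K p N, um f t = proj f j Ψ u

theorem exists_multiple (ψ : (K →+* ℂ) → ℚ) :
    ∃ m : ℕ, 0 < m ∧ ∃ Ψ : (K →+* ℂ) → ℤ, ∀ σ, (Ψ σ : ℚ) = m * ψ σ := by
  classical
  refine ⟨∏ σ, (ψ σ).den, Finset.prod_pos fun σ _ => (ψ σ).den_pos, ?_⟩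
  have h : ∀ σ : K →+* ℂ, ∃ z : ℤ, (z : ℚ) = ((∏ σ, (ψ σ).den : ℕ) : ℚ) * ψ σ := by
    intro σ
    obtain ⟨d, hd⟩ := Finset.dvd_prod_of_mem (fun σ : K →+* ℂ => (ψ σ).den) (Finset.mem_univ σ)
    refine ⟨d * (ψ σ).num, ?_⟩
    rw [hd]
    push_cast
    have h1 : ((ψ σ).den : ℚ) * ψ σ = (ψ σ).num := by
      rw [mul_comm]; exact Rat.mul_den_eq_num _
    rw [mul_comm ((ψ σ).den : ℚ) d, mul_assoc, h1]
  choose Ψ hΨ using h
  exact ⟨Ψ, hΨ⟩

theorem red_of_dependsOn {p : ℕ} (hp : p.Prime) (hG : IsGalois ℚ L) (f : K →+* L) (j : L →+* ℂ)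
    {F : IntermediateField ℚ K} (hF : Top F p) {ψ : (K →+* ℂ) → ℚ} (hψ : DependsOn F ψ) :
    Red p f j ψ := by
  obtain ⟨m, hm, Ψ, hΨ⟩ := exists_multiple ψ
  refine ⟨m, hm, Ψ, hΨ, fun N => ?_⟩
  obtain ⟨k, hk⟩ := hF N
  refine ⟨k, fun u hu => ?_⟩
  have hΨF : ∀ σ τ : K →+* ℂ, (∀ x ∈ F, σ x = τ x) → Ψ σ = Ψ τ := by
    intro σ τ h
    have h1 := hΨ σ
    rw [hψ σ τ h, ← hΨ τ] at h1
    exact_mod_cast h1
  obtain ⟨v, hv⟩ := descend_gal hG (f.comp (algebraMap F K)) (proj f j Ψ u) (by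
    intro c hc
    rw [proj, map_sum]
    refine Fintype.sum_equiv (Equiv.mulRight c⁻¹) _ _ ?_
    intro γ
    have e1 : Ψ (emb f j ((Equiv.mulRight c⁻¹) γ)) = Ψ (emb f j γ) := by
      apply hΨF
      intro x hx
      have hcx : c (f x) = f x := hc ⟨x, hx⟩
      have hcx' : c⁻¹ (f x) = f x := by
        have h1 : (c⁻¹ * c) (f x) = f x := by rw [inv_mul_cancel]; rfl
        rw [AlgEquiv.mul_apply, hcx] at h1
        exact h1
      change j (γ (c⁻¹ (f x))) = j (γ (f x))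
      rw [hcx']
    rw [e1, map_zsmul]
    congr 1)
  have hU : proj f j Ψ u ∈ U L p k :=
    AddSubgroup.sum_mem _ fun γ _ => AddSubgroup.zsmul_mem _ (um_U _ (um_U _ hu)) _
  rw [← hv] at hU
  have hvT := hk v (descend_U' _ hp v hU)
  refine ⟨um (algebraMap F K) v, um_T _ hvT, ?_⟩
  rw [← hv]
  rfl

theorem red_of_span {p : ℕ} (hp : p.Prime) (hG : IsGalois ℚ L) (f : K →+* L) (j : L →+* ℂ)
    (hF : ∀ F : IntermediateField ℚ K, F ≠ ⊤ → Top F p) {ψ : (K →+* ℂ) → ℚ}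
    (hψ : ψ ∈ Submodule.span ℚ {ψ | ∃ F : IntermediateField ℚ K, F ≠ ⊤ ∧ DependsOn F ψ}) :
    Red p f j ψ := by
  induction hψ using Submodule.span_induction with
  | mem ψ h =>
    obtain ⟨F, hne, h⟩ := h
    exact red_of_dependsOn hp hG f j (hF F hne) h
  | zero =>
    refine ⟨1, one_pos, 0, by simp, fun N => ⟨0, fun u _ => ⟨0, AddSubgroup.zero_mem _, ?_⟩⟩⟩
    rw [proj, map_zero]
    symm
    apply Finset.sum_eq_zero
    intro γ _
    rw [Pi.zero_apply, zero_smul]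
  | add ψ ψ' _ _ h h' =>
    obtain ⟨m, hm, Ψ, hΨ, h⟩ := h
    obtain ⟨m', hm', Ψ', hΨ', h'⟩ := h'
    refine ⟨m * m', Nat.mul_pos hm hm', (m' : ℤ) • Ψ + (m : ℤ) • Ψ', ?_, ?_⟩
    · intro σ
      simp only [Pi.add_apply, Pi.smul_apply, smul_eq_mul]
      push_cast
      rw [hΨ, hΨ']
      ring
    · intro N
      obtain ⟨k, hk⟩ := h N
      obtain ⟨k', hk'⟩ := h' N
      refine ⟨max k k', fun u hu => ?_⟩
      have hmono : ∀ i ≤ max k k', u ∈ U K p i := by
        intro i hi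
        rw [mem_U] at hu ⊢
        exact dvd_trans (pow_dvd_pow _ hi) hu
      obtain ⟨t, ht, e⟩ := hk u (hmono _ (le_max_left _ _))
      obtain ⟨t', ht', e'⟩ := hk' u (hmono _ (le_max_right _ _))
      refine ⟨(m' : ℤ) • t + (m : ℤ) • t', AddSubgroup.add_mem _ (AddSubgroup.zsmul_mem _ ht _)
        (AddSubgroup.zsmul_mem _ ht' _), ?_⟩
      rw [map_add, map_zsmul, map_zsmul, e, e', proj, proj, proj]
      have hgen : ∀ (M : Type) [AddCommGroup M] (a b : ℤ) (x y : (L ≃ₐ[ℚ] L) → ℤ)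
          (z : (L ≃ₐ[ℚ] L) → M), a • ∑ γ, x γ • z γ + b • ∑ γ, y γ • z γ =
            ∑ γ, (a * x γ + b * y γ) • z γ := by
        intro M _ a b x y z
        rw [Finset.smul_sum, Finset.smul_sum, ← Finset.sum_add_distrib]
        refine Finset.sum_congr rfl fun γ _ => ?_
        rw [smul_smul, smul_smul, ← add_smul]
      exact hgen _ _ _ _ _ _
  | smul c ψ _ h =>
    obtain ⟨m, hm, Ψ, hΨ, h⟩ := h
    refine ⟨m * c.den, Nat.mul_pos hm c.den_pos, c.num • Ψ, ?_, ?_⟩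
    · intro σ
      simp only [Pi.smul_apply, smul_eq_mul]
      push_cast
      rw [hΨ]
      have h1 : (c.den : ℚ) * c = c.num := by
        rw [mul_comm]; exact Rat.mul_den_eq_num c
      rw [← h1]
      ring
    · intro N
      obtain ⟨k, hk⟩ := h N
      refine ⟨k, fun u hu => ?_⟩
      obtain ⟨t, ht, e⟩ := hk u hu
      refine ⟨c.num • t, AddSubgroup.zsmul_mem _ ht _, ?_⟩
      rw [map_zsmul, e, proj, proj]
      have hgen : ∀ (M : Type) [AddCommGroup M] (a : ℤ) (x : (L ≃ₐ[ℚ] L) → ℤ)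
          (z : (L ≃ₐ[ℚ] L) → M), a • ∑ γ, x γ • z γ = ∑ γ, (a * x γ) • z γ := by
        intro M _ a x z
        rw [Finset.smul_sum]
        refine Finset.sum_congr rfl fun γ _ => ?_
        rw [smul_smul]
      exact hgen _ _ _ _

end Step

/-- If `K` is decomposable, Leopoldt's conjecture for `K` follows from its proper subfields. -/
theorem top_of_decomposable {K : Type} [Field K] [NumberField K] {p : ℕ} (hp : p.Prime)
    (h : Decomposable K) (hF : ∀ F : IntermediateField ℚ K, F ≠ ⊤ → Top F p) : Top K p := by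
  classical
  obtain ⟨L, _, _, hG, ⟨f⟩⟩ := exists_galois K
  obtain ⟨j⟩ : Nonempty (L →+* ℂ) := inferInstance
  obtain ⟨m, hm, Ψ, hΨ, hmain⟩ := red_of_span hp hG f j hF
    (h (fun σ => if σ = j.comp f then 1 else 0))
  set S : Finset (L ≃ₐ[ℚ] L) := Finset.univ.filter (fun γ => emb f j γ = j.comp f) with hS
  have hScard : 0 < S.card := by
    apply Finset.card_pos.mpr
    refine ⟨1, ?_⟩
    rw [hS, Finset.mem_filter]
    exact ⟨Finset.mem_univ _, rfl⟩
  have hΨ1 : ∀ γ : L ≃ₐ[ℚ] L, Ψ (emb f j γ) = if γ ∈ S then (m : ℤ) else 0 := by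
    intro γ
    have h1 := hΨ (emb f j γ)
    by_cases hγ : emb f j γ = j.comp f
    · have h2 : γ ∈ S := by rw [hS, Finset.mem_filter]; exact ⟨Finset.mem_univ _, hγ⟩
      rw [if_pos h2]
      beta_reduce at h1
      rw [if_pos hγ, mul_one] at h1
      exact_mod_cast h1
    · have h2 : γ ∉ S := by rw [hS, Finset.mem_filter]; exact fun h => hγ h.2
      rw [if_neg h2]
      beta_reduce at h1
      rw [if_neg hγ, mul_zero] at h1
      exact_mod_cast h1
  have hproj : ∀ u : Additive (𝓞 K)ˣ, proj f j Ψ u = (S.card * m) • um f u := by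
    intro u
    have h1 : ∀ γ : L ≃ₐ[ℚ] L, Ψ (emb f j γ) • rho L γ⁻¹ (um f u) =
        if γ ∈ S then m • um f u else 0 := by
      intro γ
      rw [hΨ1]
      by_cases hγ : γ ∈ S
      · rw [if_pos hγ, if_pos hγ]
        have h2 : rho L γ⁻¹ (um f u) = um f u := by
          apply unit_ext
          rw [rho_apply, um_apply, um_apply]
          rw [hS, Finset.mem_filter] at hγ
          have h3 := DFunLike.congr_fun hγ.2 (((Additive.toMul u : (𝓞 K)ˣ) : 𝓞 K) : K)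
          have h4 : γ (f (((Additive.toMul u : (𝓞 K)ˣ) : 𝓞 K) : K)) =
            f (((Additive.toMul u : (𝓞 K)ˣ) : 𝓞 K) : K) := j.injective h3
          change γ⁻¹ (f (((Additive.toMul u : (𝓞 K)ˣ) : 𝓞 K) : K)) = _
          have h5 : (γ⁻¹ * γ) (f (((Additive.toMul u : (𝓞 K)ˣ) : 𝓞 K) : K)) =
            f (((Additive.toMul u : (𝓞 K)ˣ) : 𝓞 K) : K) := by rw [inv_mul_cancel]; rfl
          rw [AlgEquiv.mul_apply, h4] at h5
          exact h5
        rw [h2, natCast_zsmul]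
      · rw [if_neg hγ, if_neg hγ, zero_smul]
    rw [proj, Finset.sum_congr rfl (fun γ _ => h1 γ), Finset.sum_ite_mem, Finset.univ_inter,
      Finset.sum_const, mul_nsmul']
  intro N
  obtain ⟨v, hv⟩ := remove_factor' (M := Additive (𝓞 K)ˣ) hp (m := S.card * m)
    (Nat.mul_pos hScard hm)
  obtain ⟨k, hk⟩ := hmain (N + v)
  refine ⟨k, fun u hu => hv N u ?_⟩
  obtain ⟨t, ht, e⟩ := hk u hu
  rw [hproj, ← map_nsmul] at e
  have h1 := um_injective f e
  rw [← h1]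
  exact ht

end Pool.Agent.TH613.LP
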