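import Pool.Agent.TH613.LP.Dec

/-!
# A norm relation in the automorphism group makes a number field decomposable
-/

set_option autoImplicit false

namespace Pool.Agent.TH613.LP

open NumberField Pool.Agent.TH613.ZK

section

variable {K : Type} [Field K] [NumberField K]

theorem exists_aut_over (F : IntermediateField ℚ K) (hG : IsGalois F K) (σ τ : K →+* ℂ)
    (h : ∀ x ∈ F, σ x = τ x) : ∃ c : K ≃ₐ[F] K, ∀ x, σ (c x) = τ x := by
  let _ : Algebra K ℂ := σ.toAlgebra
  have htow : IsScalarTower F K ℂ := inferInstance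
  have hcomm : ∀ r : F, τ (algebraMap F K r) = algebraMap F ℂ r := fun r => (h r r.2).symm
  let τ' : K →ₐ[F] ℂ := { τ with commutes' := hcomm }
  have hn : Normal F K := hG.to_normal
  exact ⟨AlgHom.restrictNormal' τ' K, fun x => AlgHom.restrictNormal_commutes τ' K x⟩

theorem isGalois_fixed (C : Subgroup (K ≃ₐ[ℚ] K)) : IsGalois (IntermediateField.fixedField C) K := by
  apply IsGalois.of_card_aut_eq_finrank
  rw [IntermediateField.finrank_fixedField_eq_card,
    ← Nat.card_congr (IntermediateField.fixingSubgroupEquiv _).toEquiv,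
    IntermediateField.fixingSubgroup_fixedField]

/-- Two embeddings which agree on the field fixed by `C` differ by an element of `C`. -/
theorem exists_mem_aut (C : Subgroup (K ≃ₐ[ℚ] K)) (σ τ : K →+* ℂ)
    (h : ∀ x ∈ IntermediateField.fixedField C, σ x = τ x) : ∃ c ∈ C, ∀ x, σ (c x) = τ x := by
  obtain ⟨c, hc⟩ := exists_aut_over (IntermediateField.fixedField C) (isGalois_fixed C) σ τ h
  refine ⟨c.restrictScalars ℚ, ?_, hc⟩
  have h1 : c.restrictScalars ℚ ∈ (IntermediateField.fixedField C).fixingSubgroup := by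
    rw [IntermediateField.mem_fixingSubgroup_iff]
    intro x hx
    exact c.commutes ⟨x, hx⟩
  rwa [IntermediateField.fixingSubgroup_fixedField] at h1

/-- the action of automorphisms on functions on the set of embeddings -/
def tau (K : Type) [Field K] [NumberField K] :
    (K ≃ₐ[ℚ] K) →* Module.End ℚ ((K →+* ℂ) → ℚ) where
  toFun g := { toFun := fun φ σ => φ (σ.comp (g : K →+* K))
               map_add' := fun _ _ => rfl
               map_smul' := fun _ _ => rfl }
  map_one' := rfl
  map_mul' _ _ := rfl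

theorem tau_apply (g : K ≃ₐ[ℚ] K) (φ : (K →+* ℂ) → ℚ) (σ : K →+* ℂ) :
    tau K g φ σ = φ (σ.comp (g : K →+* K)) := rfl

theorem fixedField_ne_top {C : Subgroup (K ≃ₐ[ℚ] K)} (hC : C ≠ ⊥) :
    IntermediateField.fixedField C ≠ ⊤ := by
  intro h
  have h1 := finrank_fixedField_lt hC
  rw [h, IntermediateField.finrank_top'] at h1
  exact lt_irrefl _ h1

theorem dependsOn_norm (C : Subgroup (K ≃ₐ[ℚ] K)) (a : K ≃ₐ[ℚ] K) (φ : (K →+* ℂ) → ℚ) :
    DependsOn ((IntermediateField.fixedField C).map (a : K →ₐ[ℚ] K))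
      (tau K a (∑ᶠ c : C, tau K c φ)) := by
  intro σ τ h
  rw [tau_apply, tau_apply]
  obtain ⟨d, hd, hd'⟩ := exists_mem_aut C (σ.comp (a : K →+* K)) (τ.comp (a : K →+* K)) (by
    intro x hx
    exact h _ ⟨x, hx, rfl⟩)
  let _ := Fintype.ofFinite C
  rw [finsum_eq_sum_of_fintype, Finset.sum_apply, Finset.sum_apply]
  symm
  refine Fintype.sum_equiv (Equiv.mulLeft (⟨d, hd⟩ : C)) _ _ ?_
  intro c
  rw [tau_apply, tau_apply]
  congr 1
  ext x
  change τ (a ((c : K ≃ₐ[ℚ] K) x)) = σ (a (d ((c : K ≃ₐ[ℚ] K) x)))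
  exact (hd' ((c : K ≃ₐ[ℚ] K) x)).symm

theorem map_ne_top {F : IntermediateField ℚ K} (hF : F ≠ ⊤) (a : K ≃ₐ[ℚ] K) :
    F.map (a : K →ₐ[ℚ] K) ≠ ⊤ := by
  intro h
  apply hF
  rw [eq_top_iff]
  intro x _
  have h1 : a x ∈ F.map (a : K →ₐ[ℚ] K) := by rw [h]; exact IntermediateField.mem_top
  obtain ⟨y, hy, e⟩ := h1
  have h2 : y = x := a.injective e
  rw [← h2]
  exact hy

theorem decomposable_of_normRelation (h : HasNormRelation (K ≃ₐ[ℚ] K)) : Decomposable K := by
  intro φ
  have hfin : Finite (K ≃ₐ[ℚ] K) := inferInstance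
  suffices hs : ∀ x ∈ normIdeal (K ≃ₐ[ℚ] K),
      (MonoidAlgebra.lift ℚ (Module.End ℚ ((K →+* ℂ) → ℚ)) (K ≃ₐ[ℚ] K) (tau K) x) φ ∈
        Submodule.span ℚ {ψ | ∃ F : IntermediateField ℚ K, F ≠ ⊤ ∧ DependsOn F ψ} by
    have h1 := hs 1 h
    rwa [map_one] at h1
  intro x hx
  unfold normIdeal at hx
  induction hx using Submodule.span_induction with
  | mem x hx =>
    obtain ⟨C, a, b, hC, rfl⟩ := hx
    apply Submodule.subset_span
    refine ⟨_, map_ne_top (fixedField_ne_top hC) a, ?_⟩
    have e : (MonoidAlgebra.lift ℚ (Module.End ℚ ((K →+* ℂ) → ℚ)) (K ≃ₐ[ℚ] K) (tau K)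
        (MonoidAlgebra.single a 1 * normElt C * MonoidAlgebra.single b 1)) φ =
        tau K a (∑ᶠ c : C, tau K c (tau K b φ)) := by
      rw [map_mul, map_mul, MonoidAlgebra.lift_single, MonoidAlgebra.lift_single, one_smul,
        one_smul]
      change tau K a ((MonoidAlgebra.lift ℚ (Module.End ℚ ((K →+* ℂ) → ℚ)) (K ≃ₐ[ℚ] K) (tau K)
        (normElt C)) (tau K b φ)) = _
      congr 1
      let _ := Fintype.ofFinite C
      rw [normElt, finsum_eq_sum_of_fintype, finsum_eq_sum_of_fintype, map_sum,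
        LinearMap.sum_apply]
      refine Finset.sum_congr rfl fun c _ => ?_
      rw [MonoidAlgebra.lift_single, one_smul]
    rw [e]
    exact dependsOn_norm C a _
  | zero => rw [map_zero]; exact Submodule.zero_mem _
  | add u v _ _ hu hv => rw [map_add]; exact Submodule.add_mem _ hu hv
  | smul c u _ hu => rw [map_smul]; exact Submodule.smul_mem _ _ hu

end

/-- Leopoldt's conjecture at `p` for all number fields follows from its case for the indecomposable
fields which are not CM fields. -/
theorem all_of_indecomposable {p : ℕ} (hp : p.Prime)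
    (h : ∀ (K : Type) [Field K] [NumberField K], ¬ Decomposable K → ¬ IsCMField K → Top K p)
    (n : ℕ) :
    ∀ (K : Type) [Field K] [NumberField K], Module.finrank ℚ K = n → Top K p := by
  induction n using Nat.strong_induction_on with
  | _ n ih =>
    intro K _ _ hn
    have hsub : ∀ F : IntermediateField ℚ K, F ≠ ⊤ → Top F p := by
      intro F hF
      refine ih _ ?_ F rfl
      rw [← hn]
      have h1 := Module.finrank_mul_finrank ℚ F K
      have h2 : 0 < Module.finrank ℚ F := Module.finrank_pos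
      have h3 : Module.finrank F K ≠ 1 := by
        intro h4
        apply hF
        exact IntermediateField.finrank_eq_one_iff_eq_top.mp h4
      have h4 : 0 < Module.finrank F K := Module.finrank_pos
      rw [← h1]
      exact lt_mul_of_one_lt_right h2 (by omega)
    by_cases hN : Decomposable K
    · exact top_of_decomposable hp hN hsub
    · by_cases hCM : IsCMField K
      · exact top_of_isCM hCM hp (hsub _ (fixedField_ne_top (zpowers_cc_ne_bot hCM)))
      · exact h K hN hCM

theorem main2 (p : ℕ) [hp : Fact p.Prime] :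
    List.TFAE [
      ∀ (K : Type) [Field K] [NumberField K], Leopoldt K p,
      ∀ (K : Type) [Field K] [NumberField K], ¬ Decomposable K → ¬ IsCMField K → Leopoldt K p,
      ∀ (K : Type) [Field K] [NumberField K], IsGalois ℚ K →
        ¬ HasNormalNormRelation (K ≃ₐ[ℚ] K) → ¬ IsCMField K → Leopoldt K p] := by
  tfae_have 1 → 2 := fun h K _ _ _ _ => h K
  tfae_have 1 → 3 := fun h K _ _ _ _ _ => h K
  tfae_have 2 → 1 := by
    intro h K _ _
    exact leopoldt_of_top (all_of_indecomposable hp.out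
      (fun K _ _ hN hCM => top_of_leopoldt (h K hN hCM)) _ K rfl)
  tfae_have 3 → 1 := by
    intro h K _ _
    obtain ⟨L, _, _, hG, ⟨f⟩⟩ := exists_galois K
    exact leopoldt_of_top (top_sub hp.out hG f (galois_of_norm hp.out
      (fun K _ _ hG hN hCM => top_of_leopoldt (h K hG hN hCM)) _ L hG rfl))
  tfae_finish

end Pool.Agent.TH613.LP
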