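import Pool.Agent.TH613.LP.Main

/-!
# Leopoldt's conjecture: the reduction theorems
-/

set_option autoImplicit false

namespace Pool.Agent.TH613.LP

open NumberField Pool.Agent.TH613.ZK

theorem finrank_fixedField_lt {K : Type} [Field K] [NumberField K] {C : Subgroup (K ≃ₐ[ℚ] K)}
    (hC : C ≠ ⊥) : Module.finrank ℚ (IntermediateField.fixedField C) < Module.finrank ℚ K := by
  have h1 := Module.finrank_mul_finrank ℚ (IntermediateField.fixedField C) K
  rw [IntermediateField.finrank_fixedField_eq_card] at h1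
  have h2 : 1 < Nat.card C := by
    rw [Subgroup.one_lt_card_iff_ne_bot]
    exact hC
  have h3 : 0 < Module.finrank ℚ (IntermediateField.fixedField C) := Module.finrank_pos
  rw [← h1]
  exact lt_mul_of_one_lt_right h3 h2

theorem top_of_isCM {K : Type} [Field K] [NumberField K] (hCM : IsCMField K) {p : ℕ}
    (hp : p.Prime) (h : Top (IntermediateField.fixedField (Subgroup.zpowers (cc K))) p) :
    Top K p :=
  top_of_trivial hp _ (zpowers_trivial K) h

theorem zpowers_cc_ne_bot {K : Type} [Field K] [NumberField K] (hCM : IsCMField K) :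
    Subgroup.zpowers (cc K) ≠ ⊥ := fun h => cc_ne_one K (Subgroup.zpowers_eq_bot.mp h)

theorem zpowers_cc_normal {K : Type} [Field K] [NumberField K] (hCM : IsCMField K) :
    (Subgroup.zpowers (cc K)).Normal := by
  refine ⟨fun x hx g => ?_⟩
  obtain ⟨n, rfl⟩ := Subgroup.mem_zpowers_iff.mp hx
  rw [← conj_zpow, cc_comm]
  exact Subgroup.zpow_mem _ (Subgroup.mem_zpowers _) n

theorem all_of_norm {p : ℕ} (hp : p.Prime)
    (h : ∀ (K : Type) [Field K] [NumberField K], ¬ HasNormRelation (K ≃ₐ[ℚ] K) →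
      ¬ IsCMField K → Top K p) (n : ℕ) :
    ∀ (K : Type) [Field K] [NumberField K], Module.finrank ℚ K = n → Top K p := by
  induction n using Nat.strong_induction_on with
  | _ n ih =>
    intro K _ _ hn
    have hsub : ∀ C : Subgroup (K ≃ₐ[ℚ] K), C ≠ ⊥ → Top (IntermediateField.fixedField C) p := by
      intro C hC
      exact ih _ (hn ▸ finrank_fixedField_lt hC) _ rfl
    by_cases hN : HasNormRelation (K ≃ₐ[ℚ] K)
    · exact top_of_relation hp (𝓕 := fun C => C ≠ ⊥) hN hsub
    · by_cases hCM : IsCMField K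
      · exact top_of_isCM hCM hp (hsub _ (zpowers_cc_ne_bot hCM))
      · exact h K hN hCM

theorem galois_of_norm {p : ℕ} (hp : p.Prime)
    (h : ∀ (K : Type) [Field K] [NumberField K], IsGalois ℚ K →
      ¬ HasNormalNormRelation (K ≃ₐ[ℚ] K) → ¬ IsCMField K → Top K p) (n : ℕ) :
    ∀ (K : Type) [Field K] [NumberField K], IsGalois ℚ K → Module.finrank ℚ K = n → Top K p := by
  induction n using Nat.strong_induction_on with
  | _ n ih =>
    intro K _ _ hG hn
    have hsub : ∀ C : Subgroup (K ≃ₐ[ℚ] K), C.Normal ∧ C ≠ ⊥ →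
        Top (IntermediateField.fixedField C) p := by
      rintro C ⟨hCn, hC⟩
      exact ih _ (hn ▸ finrank_fixedField_lt hC) _ (IsGalois.of_fixedField_normal_subgroup C) rfl
    by_cases hN : HasNormalNormRelation (K ≃ₐ[ℚ] K)
    · exact top_of_relation hp (𝓕 := fun C => C.Normal ∧ C ≠ ⊥) hN hsub
    · by_cases hCM : IsCMField K
      · exact top_of_isCM hCM hp (hsub _ ⟨zpowers_cc_normal hCM, zpowers_cc_ne_bot hCM⟩)
      · exact h K hG hN hCM

/-- Each number field is contained in a number field which is Galois over `ℚ`. -/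
theorem exists_galois (K : Type) [Field K] [NumberField K] :
    ∃ (L : Type) (_ : Field L) (_ : NumberField L), IsGalois ℚ L ∧ Nonempty (K →+* L) := by
  have h4 : Algebra.IsAlgebraic ℚ (AlgebraicClosure K) := Algebra.IsAlgebraic.trans ℚ K _
  have h5 : IsAlgClosure ℚ (AlgebraicClosure K) := ⟨inferInstance, h4⟩
  have h6 : Normal ℚ (AlgebraicClosure K) := IsAlgClosure.normal ℚ _
  have h1 : Normal ℚ (IntermediateField.normalClosure ℚ K (AlgebraicClosure K)) :=
    normalClosure.normal ℚ K _
  have h2 : FiniteDimensional ℚ (IntermediateField.normalClosure ℚ K (AlgebraicClosure K)) :=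
    normalClosure.is_finiteDimensional ℚ K _
  exact ⟨IntermediateField.normalClosure ℚ K (AlgebraicClosure K), inferInstance,
    ⟨⟩, ⟨⟩, ⟨algebraMap K _⟩⟩

theorem main (p : ℕ) [hp : Fact p.Prime] :
    List.TFAE [
      ∀ (K : Type) [Field K] [NumberField K], Leopoldt K p,
      ∀ (K : Type) [Field K] [NumberField K], ¬ HasNormRelation (K ≃ₐ[ℚ] K) → ¬ IsCMField K →
        Leopoldt K p,
      ∀ (K : Type) [Field K] [NumberField K], IsGalois ℚ K →
        ¬ HasNormalNormRelation (K ≃ₐ[ℚ] K) → ¬ IsCMField K → Leopoldt K p] := by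
  tfae_have 1 → 2 := fun h K _ _ _ _ => h K
  tfae_have 1 → 3 := fun h K _ _ _ _ _ => h K
  tfae_have 2 → 1 := by
    intro h K _ _
    exact leopoldt_of_top (all_of_norm hp.out (fun K _ _ hN hCM => top_of_leopoldt (h K hN hCM))
      _ K rfl)
  tfae_have 3 → 1 := by
    intro h K _ _
    obtain ⟨L, _, _, hG, ⟨f⟩⟩ := exists_galois K
    exact leopoldt_of_top (top_sub hp.out hG f (galois_of_norm hp.out
      (fun K _ _ hG hN hCM => top_of_leopoldt (h K hG hN hCM)) _ L hG rfl))
  tfae_finish

end Pool.Agent.TH613.LP
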