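import Pool.Agent.TH613.LP.Units
import Mathlib.NumberTheory.Padics.PadicIntegers
import Mathlib.NumberTheory.Padics.ProperSpace
import Mathlib.LinearAlgebra.FreeModule.IdealQuotient
import Mathlib.Topology.Sequences

/-!
# Leopoldt's conjecture and its topological form
-/

set_option autoImplicit false

namespace Pool.Agent.TH613.LP

open NumberField Filter Topology

/-- Leopoldt's conjecture for the number field `K` and the prime `p`: units of `K` congruent to `1`
at all primes above `p` which are multiplicatively independent over `ℤ` stay independent over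
`ℤ_p` in the product of the completions above `p`. (The frozen form.) -/
def Leopoldt (K : Type) [Field K] [NumberField K] (p : ℕ) [Fact p.Prime] : Prop :=
  ∀ (n : ℕ) (ε : Fin n → (𝓞 K)ˣ),
    (∀ i, ((ε i : 𝓞 K) - 1) ∈ (Ideal.span {((p : ℕ) : 𝓞 K)}).radical) →
    (∀ c : Fin n → ℤ, ∏ i, ε i ^ c i = 1 → c = 0) →
    ∀ (a : Fin n → PadicInt p) (m : ℕ → Fin n → ℤ),
      (∀ i, Tendsto (fun k => ((m k i : ℤ) : PadicInt p)) atTop (𝓝 (a i))) →
      (∀ N : ℕ, ∀ᶠ k in atTop,
        ((p : ℕ) : 𝓞 K) ^ N ∣ (((∏ i, ε i ^ m k i : (𝓞 K)ˣ) : 𝓞 K) - 1)) →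
      a = 0

/-- a rational matrix trick: a `ℤ`-independent family of integer vectors is independent over `ℤ_p`
(from the starting files, `Pool.Agent.H637R2.Leo.Crit`) -/
theorem padic_indep_of_int_indep {s n : ℕ} (p : ℕ) [Fact p.Prime] (B : Fin s → Fin n → ℤ)
    (hB : ∀ c : Fin s → ℤ, (∀ j, ∑ i, c i * B i j = 0) → c = 0)
    (a : Fin s → ℤ_[p]) (ha : ∀ j, ∑ i, a i * (B i j : ℤ_[p]) = 0) : a = 0 := by
  have h1 : LinearIndependent ℤ (fun i => fun j => (B i j : ℚ)) := by
    rw [Fintype.linearIndependent_iff]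
    intro c hc
    have h2 : c = 0 := by
      apply hB
      intro j
      have h3 := congrFun hc j
      rw [Finset.sum_apply] at h3
      simp only [Pi.smul_apply, zsmul_eq_mul, Pi.zero_apply] at h3
      exact_mod_cast h3
    intro i
    rw [h2]; rfl
  have h2 : LinearIndependent ℚ (fun i => fun j => (B i j : ℚ)) :=
    (LinearIndependent.iff_fractionRing ℤ ℚ).1 h1
  set f : (Fin s → ℚ) →ₗ[ℚ] (Fin n → ℚ) := Fintype.linearCombination ℚ (fun i => fun j => (B i j : ℚ)) with hf
  have h3 : LinearMap.ker f = ⊥ := by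
    rw [Fintype.linearIndependent_iff] at h2
    rw [LinearMap.ker_eq_bot']
    intro c hc
    rw [hf, Fintype.linearCombination_apply] at hc
    exact funext (h2 c hc)
  obtain ⟨g, hg⟩ := LinearMap.exists_leftInverse_of_injective f h3
  -- matrix form
  have h4 : ∀ i l, ∑ j, (B i j : ℚ) * g (Pi.single j 1) l = if i = l then 1 else 0 := by
    intro i l
    have h5 := congrFun (congrArg (fun φ => φ (Pi.single i (1 : ℚ))) hg) l
    simp only [LinearMap.comp_apply, LinearMap.id_apply] at h5
    have h6 : f (Pi.single i (1 : ℚ)) = ∑ j, (B i j : ℚ) • (Pi.single j (1 : ℚ) : Fin n → ℚ) := by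
      rw [hf, Fintype.linearCombination_apply_single, one_smul]
      funext k
      rw [Finset.sum_apply]
      simp [Pi.single_apply]
    rw [h6, map_sum, Finset.sum_apply] at h5
    simp only [map_smul, Pi.smul_apply, smul_eq_mul] at h5
    rw [h5, Pi.single_apply]
    by_cases h : i = l
    · simp [h]
    · simp [h, Ne.symm h]
  set φ := algebraMap ℤ_[p] ℚ_[p] with hφ
  have h5 : ∀ l, φ (a l) = 0 := by
    intro l
    have h6 : ∑ j, (∑ i, φ (a i) * (B i j : ℚ_[p])) * ((g (Pi.single j 1) l : ℚ) : ℚ_[p]) = 0 := by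
      apply Finset.sum_eq_zero
      intro j _
      have h7 := congrArg φ (ha j)
      rw [map_sum, map_zero] at h7
      rw [Finset.sum_congr rfl fun i _ => show φ (a i) * (B i j : ℚ_[p]) = φ (a i * (B i j : ℤ_[p])) by
        rw [map_mul, map_intCast], h7, zero_mul]
    simp only [Finset.sum_mul] at h6
    rw [Finset.sum_comm] at h6
    have h8 : ∀ i, ∑ j, φ (a i) * (B i j : ℚ_[p]) * ((g (Pi.single j 1) l : ℚ) : ℚ_[p])
        = φ (a i) * (if i = l then 1 else 0) := by
      intro i
      have h9 := congrArg (fun x : ℚ => (x : ℚ_[p])) (h4 i l)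
      push_cast at h9
      have h10 : (if i = l then (1 : ℚ_[p]) else 0) = (((if i = l then (1 : ℚ) else 0) : ℚ) : ℚ_[p]) := by
        split_ifs <;> simp
      rw [h10, ← h9, Finset.mul_sum]
      refine Finset.sum_congr rfl fun j _ => by ring
    rw [Finset.sum_congr rfl fun i _ => h8 i] at h6
    simpa using h6
  funext l
  exact (IsFractionRing.injective ℤ_[p] ℚ_[p]) (by rw [← hφ, h5 l]; simp)

section Coordinates

variable (K : Type) [Field K] [NumberField K]

/-- coordinates of units modulo roots of unity -/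
noncomputable def cof (x : (𝓞 K)ˣ) : Fin (Units.rank K) → ℤ :=
  (Units.exist_unique_eq_mul_prod K x).choose.2

variable {K}

theorem cof_spec (x : (𝓞 K)ˣ) : ∃ ζ ∈ Units.torsion K,
    x = ζ * ∏ i, Units.fundSystem K i ^ cof K x i :=
  ⟨_, (Units.exist_unique_eq_mul_prod K x).choose.1.2,
    (Units.exist_unique_eq_mul_prod K x).choose_spec.1⟩

theorem cof_unique {x ζ : (𝓞 K)ˣ} (hζ : ζ ∈ Units.torsion K) {e : Fin (Units.rank K) → ℤ}
    (h : x = ζ * ∏ i, Units.fundSystem K i ^ e i) : cof K x = e := by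
  have h1 := (Units.exist_unique_eq_mul_prod K x).choose_spec.2 (⟨ζ, hζ⟩, e) h
  exact (congrArg Prod.snd h1).symm

variable (K) in
/-- coordinates of units modulo roots of unity, as a homomorphism -/
noncomputable def co : Additive (𝓞 K)ˣ →+ (Fin (Units.rank K) → ℤ) where
  toFun u := cof K (Additive.toMul u)
  map_zero' := by
    apply cof_unique (one_mem _)
    rw [toMul_zero, one_mul]
    symm
    apply Finset.prod_eq_one
    intro i _
    rw [Pi.zero_apply, zpow_zero]
  map_add' := by
    intro u v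
    obtain ⟨ζ, hζ, h1⟩ := cof_spec (Additive.toMul u)
    obtain ⟨ξ, hξ, h2⟩ := cof_spec (Additive.toMul v)
    apply cof_unique (mul_mem hζ hξ)
    rw [toMul_add]
    nth_rewrite 1 [h1]
    nth_rewrite 1 [h2]
    have h3 : ∏ i, Units.fundSystem K i ^ (cof K (Additive.toMul u) + cof K (Additive.toMul v)) i =
        (∏ i, Units.fundSystem K i ^ cof K (Additive.toMul u) i) *
          ∏ i, Units.fundSystem K i ^ cof K (Additive.toMul v) i := by
      rw [← Finset.prod_mul_distrib]
      refine Finset.prod_congr rfl fun i _ => ?_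
      rw [Pi.add_apply, zpow_add]
    rw [h3]
    exact mul_mul_mul_comm _ _ _ _

theorem co_eq_zero_iff (u : Additive (𝓞 K)ˣ) : co K u = 0 ↔ ∃ k : ℕ, 0 < k ∧ k • u = 0 := by
  have h1 : co K u = 0 ↔ Additive.toMul u ∈ Units.torsion K := by
    constructor
    · intro h
      obtain ⟨ζ, hζ, h1⟩ := cof_spec (Additive.toMul u)
      have h2 : cof K (Additive.toMul u) = 0 := h
      rw [h2] at h1
      have h3 : ∏ i, Units.fundSystem K i ^ (0 : Fin (Units.rank K) → ℤ) i = 1 := by
        apply Finset.prod_eq_one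
        intro i _
        rw [Pi.zero_apply, zpow_zero]
      rw [h3, mul_one] at h1
      rw [h1]
      exact hζ
    · intro h
      apply cof_unique h
      have h3 : ∏ i, Units.fundSystem K i ^ (0 : Fin (Units.rank K) → ℤ) i = 1 := by
        apply Finset.prod_eq_one
        intro i _
        rw [Pi.zero_apply, zpow_zero]
      rw [h3, mul_one]
  rw [h1]
  change IsOfFinOrder (Additive.toMul u) ↔ _
  rw [isOfFinOrder_iff_pow_eq_one]
  rfl

theorem co_surjective : Function.Surjective (co K) := by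
  intro d
  refine ⟨Additive.ofMul (∏ i, Units.fundSystem K i ^ d i), ?_⟩
  exact cof_unique (one_mem _) (one_mul _).symm

theorem mem_T_iff {p N : ℕ} (u : Additive (𝓞 K)ˣ) :
    u ∈ T K p N ↔ ∃ d : Fin (Units.rank K) → ℤ, co K u = p ^ N • d := by
  constructor
  · rintro ⟨t, w, rfl, ht⟩
    refine ⟨co K w, ?_⟩
    rw [map_add, (co_eq_zero_iff t).mpr ht, zero_add, map_nsmul]
  · rintro ⟨d, hd⟩
    obtain ⟨w, rfl⟩ := co_surjective d
    refine ⟨u - p ^ N • w, w, by abel, ?_⟩
    rw [← co_eq_zero_iff, map_sub, hd, map_nsmul, sub_self]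

end Coordinates

section Equivalence

variable {K : Type} [Field K] [NumberField K] {p : ℕ} [hp : Fact p.Prime]

omit [NumberField K] in
theorem ofMul_prod_zpow {n : ℕ} (ε : Fin n → (𝓞 K)ˣ) (c : Fin n → ℤ) :
    Additive.ofMul (∏ i, ε i ^ c i) = ∑ i, c i • Additive.ofMul (ε i) := by
  rw [ofMul_prod]
  rfl

theorem leopoldt_of_top (h : Top K p) : Leopoldt K p := by
  intro n ε _ hind a m hlim hclose
  set B : Fin n → Fin (Units.rank K) → ℤ := fun i => co K (Additive.ofMul (ε i)) with hB
  have hco : ∀ (c : Fin n → ℤ) (j), co K (Additive.ofMul (∏ i, ε i ^ c i)) j = ∑ i, c i * B i j := by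
    intro c j
    rw [ofMul_prod_zpow, map_sum, Finset.sum_apply]
    apply Finset.sum_congr rfl
    intro i _
    rw [map_zsmul, Pi.smul_apply, smul_eq_mul]
  apply padic_indep_of_int_indep p B
  · intro c hc
    have h1 : co K (Additive.ofMul (∏ i, ε i ^ c i)) = 0 := by
      funext j
      rw [hco c j, hc j]
      rfl
    obtain ⟨k, hk, hk'⟩ := (co_eq_zero_iff _).mp h1
    have h2 : ∏ i, ε i ^ ((k : ℤ) * c i) = 1 := by
      have h3 : (∏ i, ε i ^ c i) ^ k = 1 := hk'
      rw [← h3, ← Finset.prod_pow]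
      refine Finset.prod_congr rfl fun i _ => ?_
      rw [mul_comm, zpow_mul, zpow_natCast]
    have h3 := hind _ h2
    funext i
    have h4 := congrFun h3 i
    simp only [Pi.zero_apply] at h4
    rcases mul_eq_zero.1 h4 with h5 | h5
    · exact absurd h5 (by exact_mod_cast hk.ne')
    · exact h5
  · intro j
    have hl : Tendsto (fun k => (((∑ i, m k i * B i j : ℤ)) : ℤ_[p])) atTop
        (𝓝 (∑ i, a i * (B i j : ℤ_[p]))) := by
      push_cast
      exact tendsto_finsetSum _ fun i _ => Tendsto.mul (hlim i) tendsto_const_nhds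
    have hbound : ∀ N : ℕ, ‖∑ i, a i * (B i j : ℤ_[p])‖ ≤ (p : ℝ) ^ (-(N : ℤ)) := by
      intro N
      obtain ⟨k0, hk0⟩ := h N
      refine le_of_tendsto hl.norm ?_
      filter_upwards [hclose k0] with k hk
      rw [PadicInt.norm_int_le_pow_iff_dvd]
      have h1 : Additive.ofMul (∏ i, ε i ^ m k i) ∈ T K p N := hk0 _ hk
      obtain ⟨d, hd⟩ := (mem_T_iff _).mp h1
      rw [← hco, hd, Pi.smul_apply, nsmul_eq_mul]
      push_cast
      exact dvd_mul_right _ _
    have h0 : ‖∑ i, a i * (B i j : ℤ_[p])‖ ≤ 0 := by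
      have ht : Tendsto (fun N : ℕ => (p : ℝ) ^ (-(N : ℤ))) atTop (𝓝 0) := by
        have h1 : Tendsto (fun N : ℕ => ((p : ℝ)⁻¹) ^ N) atTop (𝓝 0) := by
          apply tendsto_pow_atTop_nhds_zero_of_lt_one
          · positivity
          · apply inv_lt_one_of_one_lt₀
            exact_mod_cast hp.out.one_lt
        refine h1.congr fun N => ?_
        rw [zpow_neg, zpow_natCast, inv_pow]
      exact ge_of_tendsto' ht hbound
    exact norm_le_zero_iff.mp h0

theorem exists_exponent (K : Type) [Field K] [NumberField K] (p : ℕ) [hp : Fact p.Prime] :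
    ∃ h : ℕ, 0 < h ∧ ∀ u : (𝓞 K)ˣ,
      (((u ^ h : (𝓞 K)ˣ) : 𝓞 K) - 1) ∈ (Ideal.span {((p : ℕ) : 𝓞 K)}).radical := by
  set I := (Ideal.span {((p : ℕ) : 𝓞 K)}).radical with hI
  have hne : I ≠ ⊥ := by
    intro h0
    have h1 : ((p : ℕ) : 𝓞 K) ∈ I := Ideal.le_radical (Ideal.mem_span_singleton_self _)
    rw [h0, Ideal.mem_bot] at h1
    exact (hp.out.ne_zero) (by exact_mod_cast h1)
  have hfin : Finite (𝓞 K ⧸ I) := Ideal.finiteQuotientOfFreeOfNeBot I hne
  have hfu : Finite (𝓞 K ⧸ I)ˣ := inferInstance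
  refine ⟨Nat.card (𝓞 K ⧸ I)ˣ, Nat.card_pos, ?_⟩
  intro u
  rw [← Ideal.Quotient.eq_zero_iff_mem, map_sub, map_one, sub_eq_zero]
  have h1 := pow_card_eq_one' (x := Units.map (Ideal.Quotient.mk I : 𝓞 K →* 𝓞 K ⧸ I) u)
  have h2 := congrArg (fun z : (𝓞 K ⧸ I)ˣ => (z : 𝓞 K ⧸ I)) h1
  exact h2

theorem top_of_leopoldt (h : Leopoldt K p) : Top K p := by
  by_contra hcon
  unfold Top at hcon
  push Not at hcon
  obtain ⟨N, hN⟩ := hcon
  choose u hu huT using hN
  obtain ⟨e, he, hrad⟩ := exists_exponent K p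
  have hη : ∀ i : Fin (Units.rank K), ∃ η : Additive (𝓞 K)ˣ, co K η = Pi.single i 1 :=
    fun i => co_surjective _
  choose η hη using hη
  set w := Units.torsionOrder K with hw
  have hw0 : 0 < w := Units.torsionOrder_pos K
  have htor : ∀ t : Additive (𝓞 K)ˣ, co K t = 0 → w • t = 0 := by
    intro t ht
    have h1 : Additive.toMul t ∈ Units.torsion K := by
      have := (co_eq_zero_iff t).mp ht
      change IsOfFinOrder (Additive.toMul t)
      rw [isOfFinOrder_iff_pow_eq_one]
      exact this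
    have h2 : (⟨Additive.toMul t, h1⟩ : Units.torsion K) ^ Nat.card (Units.torsion K) = 1 :=
      pow_card_eq_one'
    have h3 := congrArg (fun z : Units.torsion K => (z : (𝓞 K)ˣ)) h2
    exact h3
  set m : ℕ → Fin (Units.rank K) → ℤ := fun k => co K (u k) with hm
  -- `w u_k = w ∑ m_i η_i`
  have hrel : ∀ k, w • u k = w • ∑ i, m k i • η i := by
    intro k
    have h1 : co K (u k - ∑ i, m k i • η i) = 0 := by
      rw [map_sub, map_sum, sub_eq_zero]
      funext j
      rw [Finset.sum_apply]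
      simp only [map_zsmul, hη, Pi.smul_apply, Pi.single_apply, smul_eq_mul, mul_ite, mul_one,
        mul_zero, Finset.sum_ite_eq, Finset.mem_univ, if_true]
      rfl
    exact nsmul_eq_of_sub (htor _ h1)
  -- a convergent subsequence
  obtain ⟨a, φ, hφ, hlim⟩ := CompactSpace.tendsto_subseq
    (fun k => fun i : Fin (Units.rank K) => ((m k i : ℤ) : ℤ_[p]))
  have hlim' : ∀ i, Tendsto (fun k => ((m (φ k) i : ℤ) : ℤ_[p])) atTop (𝓝 (a i)) := by
    intro i
    exact (tendsto_pi_nhds.mp hlim) i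
  set ε : Fin (Units.rank K) → (𝓞 K)ˣ := fun i => (Additive.toMul (η i)) ^ e with hε
  have hεadd : ∀ c : Fin (Units.rank K) → ℤ,
      Additive.ofMul (∏ i, ε i ^ c i) = e • ∑ i, c i • η i := by
    intro c
    rw [ofMul_prod_zpow]
    exact sum_smul_nsmul e c η
  have hL := h (Units.rank K) ε (fun i => hrad _) (by
    intro c hc
    have h1 : e • ∑ i, c i • η i = 0 := by
      rw [← hεadd, hc]
      rfl
    have h2 := congrArg (co K) h1
    rw [map_nsmul, map_sum, map_zero] at h2
    funext j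
    have h3 := congrFun h2 j
    rw [Pi.smul_apply, Finset.sum_apply] at h3
    simp only [map_zsmul, hη, Pi.smul_apply, Pi.single_apply, smul_eq_mul, mul_ite, mul_one,
        mul_zero, Finset.sum_ite_eq, Finset.mem_univ, if_true, nsmul_eq_mul, Pi.zero_apply] at h3
    rcases mul_eq_zero.1 h3 with h4 | h4
    · exact absurd h4 (by exact_mod_cast he.ne')
    · exact h4) (fun i => (w : ℤ_[p]) * a i) (fun k i => (w : ℤ) * m (φ k) i) (by
    intro i
    push_cast
    exact Tendsto.mul tendsto_const_nhds (hlim' i)) (by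
    intro N'
    filter_upwards [eventually_ge_atTop N'] with k hk
    have h1 : u (φ k) ∈ U K p N' := by
      have h2 := hu (φ k)
      rw [mem_U] at h2 ⊢
      exact dvd_trans (pow_dvd_pow _ (le_trans hk (hφ.id_le k))) h2
    have h2 : Additive.ofMul (∏ i, ε i ^ ((w : ℤ) * m (φ k) i)) = e • (w • u (φ k)) := by
      rw [hεadd, hrel]
      congr 1
      exact sum_mul_smul w _ η
    have h3 : Additive.ofMul (∏ i, ε i ^ ((w : ℤ) * m (φ k) i)) ∈ U K p N' := by
      rw [h2]
      exact AddSubgroup.nsmul_mem _ (AddSubgroup.nsmul_mem _ h1 _) _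
    exact h3)
  have ha : a = 0 := by
    funext i
    have h1 := congrFun hL i
    simp only [Pi.zero_apply] at h1
    rcases mul_eq_zero.1 h1 with h2 | h2
    · exact absurd h2 (by exact_mod_cast hw0.ne')
    · exact h2
  -- the coordinates are eventually divisible by `p ^ N`
  have hev : ∀ᶠ k in atTop, ∀ i, ((p : ℤ) ^ N) ∣ m (φ k) i := by
    rw [eventually_all]
    intro i
    have h1 := (hlim' i).norm
    rw [ha, Pi.zero_apply, norm_zero] at h1
    have h2 : (0 : ℝ) < (p : ℝ) ^ (-(N : ℤ)) := by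
      apply zpow_pos
      exact_mod_cast hp.out.pos
    filter_upwards [h1.eventually_lt_const h2] with k hk
    rw [← PadicInt.norm_int_le_pow_iff_dvd]
    exact hk.le
  obtain ⟨k, hk⟩ := hev.exists
  apply huT (φ k)
  rw [mem_T_iff]
  choose d hd using hk
  refine ⟨d, ?_⟩
  funext i
  rw [Pi.smul_apply, nsmul_eq_mul]
  push_cast
  exact hd i

theorem leopoldt_iff_top : Leopoldt K p ↔ Top K p := ⟨top_of_leopoldt, leopoldt_of_top⟩

end Equivalence

end Pool.Agent.TH613.LP
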