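import Pool.Agent.TH613.LP.Leo
import Mathlib.NumberTheory.NumberField.CMField
import Mathlib.FieldTheory.Normal.Closure
import Mathlib.Data.List.TFAE

/-!
# Leopoldt's conjecture: reductions by norm relations, by descent to subfields, and for CM fields
-/

set_option autoImplicit false

namespace Pool.Agent.TH613.LP

open NumberField Pool.Agent.TH613.ZK

/-- the torsion elements -/
def tors (M : Type) [AddCommGroup M] : AddSubgroup M where
  carrier := {t | ∃ k : ℕ, 0 < k ∧ k • t = 0}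
  zero_mem' := ⟨1, one_pos, by simp⟩
  add_mem' := by
    rintro t t' ⟨k, hk, ht⟩ ⟨k', hk', ht'⟩
    refine ⟨k * k', Nat.mul_pos hk hk', ?_⟩
    rw [smul_add, mul_smul k k' t', ht', smul_zero, add_zero, mul_comm, mul_smul, ht, smul_zero]
  neg_mem' := by
    rintro t ⟨k, hk, ht⟩
    exact ⟨k, hk, by rw [smul_neg, ht, neg_zero]⟩

theorem tors_map {M M' : Type} [AddCommGroup M] [AddCommGroup M'] (f : M →+ M') {u : M}
    (hu : u ∈ tors M) : f u ∈ tors M' := by
  obtain ⟨k, hk, ht⟩ := hu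
  refine ⟨k, hk, ?_⟩
  rw [← map_nsmul, ht, map_zero]

theorem mem_tor_iff {M : Type} [AddCommGroup M] {p N : ℕ} {u : M} :
    u ∈ tor M p N ↔ ∃ w : M, u - p ^ N • w ∈ tors M := by
  constructor
  · rintro ⟨t, w, rfl, ht⟩
    exact ⟨w, by rw [add_sub_cancel_right]; exact ht⟩
  · rintro ⟨w, ht⟩
    exact ⟨u - p ^ N • w, w, by abel, ht⟩

theorem remove_factor' {M : Type} [AddCommGroup M] {p : ℕ} (hp : p.Prime) {m : ℕ} (hm : 0 < m) :
    ∃ v : ℕ, ∀ (N : ℕ) (u : M), m • u ∈ tor M p (N + v) → u ∈ tor M p N := by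
  obtain ⟨v, hv⟩ := remove_factor (M := M) hp hm
  refine ⟨v, ?_⟩
  rintro N u ⟨t, w, e, ht⟩
  obtain ⟨t', w', e', ht'⟩ := hv N u t w e ht
  exact ⟨t', w', e', ht'⟩

/-- If the automorphisms in `C` act trivially on the units modulo torsion, it is enough to treat the
field fixed by `C`. -/
theorem top_of_trivial {K : Type} [Field K] [NumberField K] {p : ℕ} (hp : p.Prime)
    (C : Subgroup (K ≃ₐ[ℚ] K))
    (htriv : ∀ c ∈ C, ∀ u : Additive (𝓞 K)ˣ, rho K c u - u ∈ tors (Additive (𝓞 K)ˣ))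
    (h : Top (IntermediateField.fixedField C) p) : Top K p := by
  intro N
  obtain ⟨v, hv⟩ := remove_factor' (M := Additive (𝓞 K)ˣ) hp (m := Nat.card C) Nat.card_pos
  obtain ⟨k, hk⟩ := norm_T C hp h (N + v)
  refine ⟨k, fun u hu => hv N u ?_⟩
  have h1 : ∑ᶠ c : C, rho K c u ∈ tor (Additive (𝓞 K)ˣ) p (N + v) := hk u hu
  rw [mem_tor_iff] at h1 ⊢
  obtain ⟨w, hw⟩ := h1
  refine ⟨w, ?_⟩
  let _ := Fintype.ofFinite C
  rw [finsum_eq_sum_of_fintype] at hw
  have h2 : ∑ c : C, (rho K (c : K ≃ₐ[ℚ] K) u - u) ∈ tors (Additive (𝓞 K)ˣ) :=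
    AddSubgroup.sum_mem _ fun c _ => htriv c c.2 u
  rw [Finset.sum_sub_distrib, Finset.sum_const, Finset.card_univ, ← Nat.card_eq_fintype_card] at h2
  have h3 := AddSubgroup.sub_mem _ hw h2
  have e : (∑ c : C, rho K (c : K ≃ₐ[ℚ] K) u) - p ^ (N + v) • w -
      ((∑ c : C, rho K (c : K ≃ₐ[ℚ] K) u) - Nat.card C • u) =
      Nat.card C • u - p ^ (N + v) • w := by abel
  rw [e] at h3
  exact h3

section CM

variable (K : Type) [Field K] [NumberField K] [IsCMField K]

/-- complex conjugation on a CM field, as an automorphism over `ℚ` -/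
noncomputable def cc : K ≃ₐ[ℚ] K :=
  AlgEquiv.ofRingEquiv (f := (IsCMField.complexConj K).toRingEquiv) (fun r => by
    rw [eq_ratCast, map_ratCast])

theorem cc_apply (x : K) : cc K x = IsCMField.complexConj K x := rfl

theorem cc_ne_one : cc K ≠ 1 := by
  intro h
  apply IsCMField.complexConj_ne_one K
  ext x
  have := DFunLike.congr_fun h x
  exact this

theorem cc_comm (g : K ≃ₐ[ℚ] K) : g * cc K * g⁻¹ = cc K := by
  ext x
  obtain ⟨σ⟩ : Nonempty (K →+* ℂ) := inferInstance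
  apply σ.injective
  have h1 := IsCMField.complexEmbedding_complexConj K (σ.comp (g : K →+* K)) (g⁻¹ x)
  have h2 := IsCMField.complexEmbedding_complexConj K σ x
  have h3 : (g * cc K * g⁻¹) x = g (IsCMField.complexConj K (g⁻¹ x)) := rfl
  rw [h3, cc_apply, h2]
  have h4 : g (g⁻¹ x) = x := by
    have : (g * g⁻¹) x = x := by rw [mul_inv_cancel]; rfl
    exact this
  simp only [RingHom.comp_apply] at h1
  change σ (g (IsCMField.complexConj K (g⁻¹ x))) = _ at h1
  rw [h1]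
  change (starRingEnd ℂ) (σ (g (g⁻¹ x))) = _
  rw [h4]

theorem cc_trivial (u : Additive (𝓞 K)ˣ) : rho K (cc K) u - u ∈ tors (Additive (𝓞 K)ˣ) := by
  have h1 : u - rho K (cc K) u = Additive.ofMul
      ((IsCMField.unitsMulComplexConjInv K (Additive.toMul u) : Units.torsion K) : (𝓞 K)ˣ) := by
    rw [IsCMField.unitsMulComplexConjInv_apply, sub_eq_add_neg]
    rfl
  have h2 : u - rho K (cc K) u ∈ tors (Additive (𝓞 K)ˣ) := by
    rw [h1]
    have h3 := (IsCMField.unitsMulComplexConjInv K (Additive.toMul u)).2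
    have h4 : IsOfFinOrder
      ((IsCMField.unitsMulComplexConjInv K (Additive.toMul u) : Units.torsion K) : (𝓞 K)ˣ) := h3
    rw [isOfFinOrder_iff_pow_eq_one] at h4
    exact h4
  have h3 := AddSubgroup.neg_mem _ h2
  rwa [neg_sub] at h3

theorem zpowers_trivial (c : K ≃ₐ[ℚ] K) (hc : c ∈ Subgroup.zpowers (cc K))
    (u : Additive (𝓞 K)ˣ) : rho K c u - u ∈ tors (Additive (𝓞 K)ˣ) := by
  let S : Subgroup (K ≃ₐ[ℚ] K) :=
    { carrier := {g | ∀ u : Additive (𝓞 K)ˣ, rho K g u - u ∈ tors (Additive (𝓞 K)ˣ)}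
      mul_mem' := by
        intro a b ha hb u
        have h1 := AddSubgroup.add_mem _ (ha (rho K b u)) (hb u)
        have h2 : rho K (a * b) u = rho K a (rho K b u) := by rw [map_mul]; rfl
        rw [h2]
        rwa [sub_add_sub_cancel] at h1
      one_mem' := by
        intro u
        rw [map_one]
        change u - u ∈ _
        rw [sub_self]
        exact AddSubgroup.zero_mem _
      inv_mem' := by
        intro a ha u
        have h1 := AddSubgroup.neg_mem _ (ha (rho K a⁻¹ u))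
        have h2 : rho K a (rho K a⁻¹ u) = u := by
          have : rho K (a * a⁻¹) u = u := by rw [mul_inv_cancel, map_one]; rfl
          rwa [map_mul] at this
        rwa [h2, neg_sub] at h1 }
  have hle : Subgroup.zpowers (cc K) ≤ S := by
    rw [Subgroup.zpowers_le]
    exact cc_trivial K
  exact hle hc u

end CM

section Subfields

variable {K L : Type} [Field K] [NumberField K] [Field L] [NumberField L]

omit [NumberField K] [NumberField L] in
theorem um_injective (f : K →+* L) : Function.Injective (um f) := by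
  intro u v h
  apply unit_ext
  apply f.injective
  rw [← um_apply, ← um_apply, h]

omit [NumberField K] [NumberField L] in
theorem descendG (f : K →+* L) (w : Additive (𝓞 L)ˣ)
    (h1 : ∃ x : K, f x = (((Additive.toMul w : (𝓞 L)ˣ) : 𝓞 L) : L))
    (h2 : ∃ x : K, f x = (((Additive.toMul (-w) : (𝓞 L)ˣ) : 𝓞 L) : L)) :
    ∃ v : Additive (𝓞 K)ˣ, um f v = w := by
  obtain ⟨x, hx⟩ := h1
  obtain ⟨y, hy⟩ := h2
  have key : ∀ (z : K) (z' : 𝓞 L), f z = (z' : L) → IsIntegral ℤ z := by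
    intro z z' h
    rw [← isIntegral_algHom_iff f.toIntAlgHom f.injective]
    change IsIntegral ℤ (f z)
    rw [h]
    exact RingOfIntegers.isIntegral_coe z'
  obtain ⟨x', hx'⟩ : ∃ x' : 𝓞 K, (x' : K) = x := ⟨⟨x, key x _ hx⟩, rfl⟩
  obtain ⟨y', hy'⟩ : ∃ y' : 𝓞 K, (y' : K) = y := ⟨⟨y, key y _ hy⟩, rfl⟩
  have hxy : x' * y' = 1 := by
    apply RingOfIntegers.ext
    apply f.injective
    have e1 : ((x' * y' : 𝓞 K) : K) = x * y := by rw [← hx', ← hy']; exact map_mul _ _ _
    rw [e1, map_mul, hx, hy]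
    have h2 : ((Additive.toMul w : (𝓞 L)ˣ) : 𝓞 L) * ((Additive.toMul (-w) : (𝓞 L)ˣ) : 𝓞 L) = 1 := by
      rw [toMul_neg]
      exact Units.mul_inv _
    have h3 := congrArg (fun z : 𝓞 L => (z : L)) h2
    simp only [map_mul, map_one] at h3 ⊢
    exact h3
  refine ⟨Additive.ofMul ⟨x', y', hxy, by rw [mul_comm]; exact hxy⟩, ?_⟩
  apply unit_ext
  rw [um_apply]
  change f (x' : K) = _
  rw [hx', hx]

/-- Leopoldt's conjecture passes to subfields of a Galois extension of `ℚ`. -/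
theorem top_sub {p : ℕ} (hp : p.Prime) (hG : IsGalois ℚ L) (f : K →+* L) (h : Top L p) :
    Top K p := by
  classical
  have hcomm : ∀ q : ℚ, f (algebraMap ℚ K q) = algebraMap ℚ L q := fun q => by
    rw [eq_ratCast, eq_ratCast, map_ratCast]
  let f' : K →ₐ[ℚ] L := { f with commutes' := hcomm }
  have hff : ∀ x, f' x = f x := fun _ => rfl
  let H : Subgroup (L ≃ₐ[ℚ] L) := f'.fieldRange.fixingSubgroup
  have hfix : ∀ c ∈ H, ∀ x : K, c (f x) = f x := by
    intro c hc x
    exact (IntermediateField.mem_fixingSubgroup_iff _ c).mp hc (f x) ⟨x, rfl⟩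
  have hrange : ∀ y : L, (∀ c ∈ H, c y = y) → ∃ x : K, f x = y := by
    intro y hy
    have h1 : y ∈ IntermediateField.fixedField H := by
      rw [IntermediateField.mem_fixedField_iff]
      exact hy
    rw [IsGalois.fixedField_fixingSubgroup] at h1
    obtain ⟨x, hx⟩ := h1
    exact ⟨x, hx⟩
  intro N
  obtain ⟨v, hv⟩ := remove_factor' (M := Additive (𝓞 K)ˣ) hp (m := Nat.card H) Nat.card_pos
  obtain ⟨k, hk⟩ := h (N + v)
  refine ⟨k, fun u hu => hv N u ?_⟩
  have h1 : um f u ∈ tor (Additive (𝓞 L)ˣ) p (N + v) := hk _ (um_U f hu)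
  rw [mem_tor_iff] at h1 ⊢
  obtain ⟨w, hw⟩ := h1
  let _ := Fintype.ofFinite H
  have hw' : ∀ d ∈ H, rho L d (∑ c : H, rho L (c : L ≃ₐ[ℚ] L) w) =
      ∑ c : H, rho L (c : L ≃ₐ[ℚ] L) w := by
    intro d hd
    rw [map_sum]
    refine Fintype.sum_equiv (Equiv.mulLeft (⟨d, hd⟩ : H)) _ _ ?_
    intro c
    have : rho L ((Equiv.mulLeft (⟨d, hd⟩ : H)) c : L ≃ₐ[ℚ] L) = rho L d * rho L (c : L ≃ₐ[ℚ] L) := by
      rw [← map_mul]
      rfl
    rw [this]
    rfl
  obtain ⟨w', hw'⟩ : ∃ w' : Additive (𝓞 K)ˣ, um f w' = ∑ c : H, rho L (c : L ≃ₐ[ℚ] L) w := by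
    apply descendG
    · apply hrange
      intro c hc
      have h2 := um_apply ((c : L ≃ₐ[ℚ] L) : L →+* L) (∑ c : H, rho L (c : L ≃ₐ[ℚ] L) w)
      rw [← rho_apply, hw' c hc] at h2
      exact h2.symm
    · apply hrange
      intro c hc
      have h2 := um_apply ((c : L ≃ₐ[ℚ] L) : L →+* L) (-∑ c : H, rho L (c : L ≃ₐ[ℚ] L) w)
      rw [← rho_apply, map_neg, hw' c hc] at h2
      exact h2.symm
  refine ⟨w', ?_⟩
  have h3 : um f (Nat.card H • u - p ^ (N + v) • w') ∈ tors (Additive (𝓞 L)ˣ) := by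
    have h4 : ∑ c : H, rho L (c : L ≃ₐ[ℚ] L) (um f u - p ^ (N + v) • w) ∈
        tors (Additive (𝓞 L)ˣ) :=
      AddSubgroup.sum_mem _ fun c _ => tors_map (um ((c : L ≃ₐ[ℚ] L) : L →+* L)) hw
    have h5 : ∀ c : H, rho L (c : L ≃ₐ[ℚ] L) (um f u) = um f u := by
      intro c
      apply unit_ext
      rw [rho_apply, um_apply, um_apply]
      exact hfix c c.2 _
    have h6 : um f (Nat.card H • u - p ^ (N + v) • w') =
        ∑ c : H, rho L (c : L ≃ₐ[ℚ] L) (um f u - p ^ (N + v) • w) := by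
      rw [map_sub, map_nsmul, map_nsmul, hw']
      simp only [map_sub, map_nsmul]
      rw [Finset.sum_sub_distrib, Finset.sum_congr rfl (fun c _ => h5 c), Finset.sum_const,
        Finset.card_univ, ← Nat.card_eq_fintype_card, Finset.sum_nsmul]
    rw [h6]
    exact h4
  obtain ⟨k', hk', ht⟩ := h3
  refine ⟨k', hk', um_injective f ?_⟩
  rw [map_nsmul, ht, map_zero]

end Subfields

end Pool.Agent.TH613.LP
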