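import Pool.Agent.TH613.LP.CorrFin
import Mathlib.NumberTheory.Basic

/-!
# Leopoldt's conjecture for fields of unit rank at most one
-/

set_option autoImplicit false

namespace Pool.Agent.TH613.LP

open NumberField Pool.Agent.TH613.ZK

theorem smul_of_sub {M : Type} [AddCommGroup M] {w : ℕ} {n : ℤ} {x y : M}
    (h : w • (x - n • y) = 0) : w • x = ((w : ℤ) * n) • y := by
  rw [smul_sub, sub_eq_zero] at h
  rw [h, ← natCast_zsmul, smul_smul]

theorem gcd_mem {M : Type} [AddCommGroup M] (H : AddSubgroup M) {x : M} {w a b : ℤ}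
    (ha : (w * a) • x ∈ H) (hb : (w * b) • x ∈ H) : (w * (Int.gcd a b : ℤ)) • x ∈ H := by
  have e : w * (Int.gcd a b : ℤ) = Int.gcdA a b * (w * a) + Int.gcdB a b * (w * b) := by
    rw [Int.gcd_eq_gcd_ab]
    ring
  rw [e, add_smul, mul_smul, mul_smul _ (w * b)]
  exact AddSubgroup.add_mem _ (AddSubgroup.zsmul_mem _ ha _) (AddSubgroup.zsmul_mem _ hb _)

theorem mul_mem' {M : Type} [AddCommGroup M] (H : AddSubgroup M) {x : M} {w a b : ℤ}
    (ha : (w * a) • x ∈ H) : (w * (a * b)) • x ∈ H := by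
  have e : w * (a * b) = b * (w * a) := by ring
  rw [e, mul_smul]
  exact AddSubgroup.zsmul_mem _ ha _

section

variable (K : Type) [Field K] [NumberField K]

theorem not_isUnit_natCast {p : ℕ} (hp : p.Prime) : ¬ IsUnit ((p : ℕ) : 𝓞 K) := by
  intro h
  have h1 : IsUnit (Algebra.norm ℤ ((p : ℕ) : 𝓞 K)) := h.map _
  have h2 : ((p : ℕ) : 𝓞 K) = algebraMap ℤ (𝓞 K) (p : ℤ) := by simp
  rw [h2, Algebra.norm_algebraMap, RingOfIntegers.rank,
    isUnit_pow_iff (Module.finrank_pos (R := ℚ) (M := K)).ne'] at h1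
  exact (Nat.prime_iff_prime_int.mp hp).not_isUnit h1

theorem eq_zero_of_forall_U {p : ℕ} (hp : p.Prime) {u : Additive (𝓞 K)ˣ}
    (h : ∀ k, u ∈ U K p k) : u = 0 := by
  by_contra hne
  have h1 : ((Additive.toMul u : (𝓞 K)ˣ) : 𝓞 K) - 1 ≠ 0 := by
    intro h0
    apply hne
    apply Additive.toMul.injective
    ext
    rw [toMul_zero, Units.val_one, sub_eq_zero.mp h0]
  obtain ⟨n, hn⟩ := FiniteMultiplicity.of_not_isUnit (not_isUnit_natCast K hp) h1
  exact hn (h (n + 1))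

theorem exists_s {p : ℕ} (hp : p.Prime) : ∃ s : ℕ, 0 < s ∧ ∀ u : Additive (𝓞 K)ˣ, ∀ k,
    (p ^ k * s) • u ∈ U K p k := by
  set I := Ideal.span {((p : ℕ) : 𝓞 K)} with hI
  have hne : I ≠ ⊥ := by
    intro h0
    have h1 : ((p : ℕ) : 𝓞 K) ∈ I := Ideal.mem_span_singleton_self _
    rw [h0, Ideal.mem_bot] at h1
    exact hp.ne_zero (by exact_mod_cast h1)
  have hfin : Finite (𝓞 K ⧸ I) := Ideal.finiteQuotientOfFreeOfNeBot I hne
  have hfu : Finite (𝓞 K ⧸ I)ˣ := inferInstance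
  refine ⟨Nat.card (𝓞 K ⧸ I)ˣ, Nat.card_pos, ?_⟩
  intro u k
  have h3 : ((p : ℕ) : 𝓞 K) ∣
      ((Additive.toMul u ^ Nat.card (𝓞 K ⧸ I)ˣ : (𝓞 K)ˣ) : 𝓞 K) - 1 := by
    rw [← Ideal.mem_span_singleton, ← hI, ← Ideal.Quotient.eq_zero_iff_mem, map_sub, map_one,
      sub_eq_zero]
    have h1 := pow_card_eq_one' (x := Units.map (Ideal.Quotient.mk I : 𝓞 K →* 𝓞 K ⧸ I)
      (Additive.toMul u))
    have h2 := congrArg (fun z : (𝓞 K ⧸ I)ˣ => (z : 𝓞 K ⧸ I)) h1
    exact h2
  have h4 := dvd_sub_pow_of_dvd_sub h3 k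
  rw [one_pow] at h4
  rw [mem_U]
  have h5 : ((Additive.toMul ((p ^ k * Nat.card (𝓞 K ⧸ I)ˣ) • u) : (𝓞 K)ˣ) : 𝓞 K) =
      ((Additive.toMul u ^ Nat.card (𝓞 K ⧸ I)ˣ : (𝓞 K)ˣ) : 𝓞 K) ^ p ^ k := by
    rw [toMul_nsmul, mul_comm, pow_mul, Units.val_pow_eq_pow_val]
  rw [h5]
  exact (pow_dvd_pow _ (Nat.le_succ k)).trans h4

variable {K}

theorem top_of_rank_le_one {p : ℕ} (hp : p.Prime) (hr : Units.rank K ≤ 1) : Top K p := by
  intro N
  rcases Nat.lt_or_ge (Units.rank K) 1 with h0 | h0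
  · refine ⟨0, fun u _ => (mem_T_iff u).mpr ⟨0, ?_⟩⟩
    funext i
    exact absurd i.2 (by omega)
  · have hr1 : Units.rank K = 1 := le_antisymm hr h0
    have hsub : ∀ i i' : Fin (Units.rank K), i = i' := by
      intro i i'
      ext
      have := i.2
      have := i'.2
      omega
    let i0 : Fin (Units.rank K) := ⟨0, h0⟩
    obtain ⟨ε, hε⟩ := co_surjective (K := K) (fun _ => 1)
    obtain ⟨s, hs, hsU⟩ := exists_s K hp
    -- the torsion elements are killed by `w`
    obtain ⟨w, hw, hwt⟩ : ∃ w : ℕ, 0 < w ∧ ∀ u : Additive (𝓞 K)ˣ, co K u = 0 → w • u = 0 := by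
      refine ⟨Nat.card (Units.torsion K), Nat.card_pos, fun u hu => ?_⟩
      obtain ⟨k, hk, hk'⟩ := (co_eq_zero_iff u).mp hu
      have h1 : Additive.toMul u ∈ Units.torsion K := by
        change IsOfFinOrder (Additive.toMul u)
        rw [isOfFinOrder_iff_pow_eq_one]
        exact ⟨k, hk, hk'⟩
      have h2 := pow_card_eq_one' (x := (⟨Additive.toMul u, h1⟩ : Units.torsion K))
      exact congrArg Subtype.val h2
    have hD : (w * (p ^ N * s)) • ε ≠ 0 := by
      intro h1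
      have h2 := congrArg (co K) h1
      rw [map_nsmul, hε, map_zero] at h2
      have h3 := congrFun h2 i0
      rw [Pi.smul_apply, nsmul_eq_mul, mul_one, Pi.zero_apply] at h3
      have h4 : 0 < w * (p ^ N * s) := Nat.mul_pos hw (Nat.mul_pos (pow_pos hp.pos N) hs)
      exact h4.ne' (by exact_mod_cast h3)
    obtain ⟨k, hk⟩ : ∃ k, (w * (p ^ N * s)) • ε ∉ U K p k := by
      by_contra hcon
      push Not at hcon
      exact hD (eq_zero_of_forall_U K hp hcon)
    refine ⟨k, fun u hu => ?_⟩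
    by_contra hT
    apply hk
    have hn : ¬ ((p : ℤ) ^ N ∣ co K u i0) := by
      rintro ⟨d, hd⟩
      apply hT
      refine (mem_T_iff u).mpr ⟨fun _ => d, ?_⟩
      funext i
      rw [hsub i i0, hd, Pi.smul_apply, nsmul_eq_mul]
      push_cast
      rfl
    have h1 : w • u = ((w : ℤ) * co K u i0) • ε := by
      have h2 : co K (u - co K u i0 • ε) = 0 := by
        rw [map_sub, map_zsmul, hε]
        funext i
        rw [hsub i i0, Pi.sub_apply, Pi.smul_apply, smul_eq_mul, mul_one, sub_self, Pi.zero_apply]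
      exact smul_of_sub (hwt _ h2)
    have h2 : ((w : ℤ) * co K u i0) • ε ∈ U K p k := by
      rw [← h1]
      exact AddSubgroup.nsmul_mem _ hu w
    have h3 : ((w : ℤ) * ((p ^ k * s : ℕ) : ℤ)) • ε ∈ U K p k := by
      have h4 := AddSubgroup.nsmul_mem _ (hsU ε k) w
      have hgen : ∀ (M : Type) [AddCommGroup M] (a b : ℕ) (z : M),
          a • (b • z) = ((a : ℤ) * (b : ℤ)) • z := by
        intro M _ a b z
        rw [mul_smul, natCast_zsmul, natCast_zsmul]
      rwa [hgen] at h4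
    have h4 := gcd_mem _ h2 h3
    have h5 : Int.gcd (co K u i0) ((p ^ k * s : ℕ) : ℤ) ∣ p ^ N * s := by
      rw [Int.gcd_def, Int.natAbs_natCast]
      refine (Nat.gcd_mul_right_dvd_mul_gcd _ _ _).trans
        (Nat.mul_dvd_mul ?_ (Nat.gcd_dvd_right _ _))
      obtain ⟨i, _, hi⟩ := (Nat.dvd_prime_pow hp).mp
        (Nat.gcd_dvd_right (co K u i0).natAbs (p ^ k))
      rw [hi]
      apply pow_dvd_pow
      by_contra hlt
      apply hn
      have h6 : p ^ N ∣ (co K u i0).natAbs :=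
        (pow_dvd_pow p (by omega)).trans (hi ▸ Nat.gcd_dvd_left _ _)
      have h7 := Int.natCast_dvd.mpr h6
      push_cast at h7
      exact h7
    obtain ⟨e, he⟩ := h5
    have h8 := mul_mem' (b := (e : ℤ)) _ h4
    have h9 : (w : ℤ) * ((Int.gcd (co K u i0) ((p ^ k * s : ℕ) : ℤ) : ℤ) * (e : ℤ)) =
        ((w * (p ^ N * s) : ℕ) : ℤ) := by
      rw [he]
      push_cast
      ring
    rw [h9, natCast_zsmul] at h8
    exact h8

end

theorem main5 (p : ℕ) [hp : Fact p.Prime] :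
    List.TFAE [
      ∀ (K : Type) [Field K] [NumberField K], Leopoldt K p,
      ∀ (K : Type) [Field K] [NumberField K], 2 ≤ Units.rank K → ¬ Reducible K → Leopoldt K p,
      ∀ (K : Type) [Field K] [NumberField K], 2 ≤ Units.rank K → IsGalois ℚ K →
        ¬ GaloisReducible K → Leopoldt K p] := by
  tfae_have 1 → 2 := fun h K _ _ _ _ => h K
  tfae_have 1 → 3 := fun h K _ _ _ _ _ => h K
  tfae_have 2 → 1 := by
    intro h
    have h2 : ∀ (K : Type) [Field K] [NumberField K], ¬ Reducible K → Leopoldt K p := by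
      intro K _ _ hK
      by_cases hr : 2 ≤ Units.rank K
      · exact h K hr hK
      · exact leopoldt_of_top (top_of_rank_le_one hp.out (by omega))
    exact ((main4 p).out 0 1).mpr h2
  tfae_have 3 → 1 := by
    intro h
    have h2 : ∀ (K : Type) [Field K] [NumberField K], IsGalois ℚ K → ¬ GaloisReducible K →
        Leopoldt K p := by
      intro K _ _ hG hK
      by_cases hr : 2 ≤ Units.rank K
      · exact h K hr hG hK
      · exact leopoldt_of_top (top_of_rank_le_one hp.out (by omega))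
    exact ((main4 p).out 0 2).mpr h2
  tfae_finish

end Pool.Agent.TH613.LP
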