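import Pool.Agent.TH613.LP.DecGal
import Mathlib.RepresentationTheory.Maschke

/-!
# Leopoldt's conjecture and functions on the archimedean places
-/

set_option autoImplicit false

namespace Pool.Agent.TH613.LP

open NumberField Pool.Agent.TH613.ZK

/-- Every rational function on the set of embeddings of `K` into `ℂ` which is invariant under
complex conjugation, that is, every function on the set of archimedean places, is a sum of functions
on the set of embeddings each of which depends only on the restrictions of the embeddings to a field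
in the set `𝓕` of subfields of `K`. -/
def DecomposableBy (K : Type) [Field K] [NumberField K] (𝓕 : Set (IntermediateField ℚ K)) : Prop :=
  ∀ φ : (K →+* ℂ) → ℚ, (∀ σ : K →+* ℂ, φ ((starRingEnd ℂ).comp σ) = φ σ) →
    φ ∈ Submodule.span ℚ {ψ | ∃ F ∈ 𝓕, DependsOn F ψ}

section Step

variable {K L : Type} [Field K] [NumberField K] [Field L] [NumberField L]

open Classical in
/-- `∑ Ψ(j γ f) γ⁻¹ y`, `γ ∈ Gal(L / ℚ)` -/
noncomputable def pr (f : K →+* L) (j : L →+* ℂ) (Ψ : (K →+* ℂ) → ℤ) (y : Additive (𝓞 L)ˣ) :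
    Additive (𝓞 L)ˣ :=
  ∑ γ : L ≃ₐ[ℚ] L, Ψ (emb f j γ) • rho L γ⁻¹ y

/-- the property of functions which is proved by induction -/
def RedL (p : ℕ) (f : K →+* L) (j : L →+* ℂ) (ψ : (K →+* ℂ) → ℚ) : Prop :=
  ∃ m : ℕ, 0 < m ∧ ∃ Ψ : (K →+* ℂ) → ℤ, (∀ σ, (Ψ σ : ℚ) = m * ψ σ) ∧
    ∀ N, ∃ k, ∀ u ∈ U L p k, ∃ t ∈ T K p N, um f t = pr f j Ψ u

theorem redL_of_dependsOn {p : ℕ} (hp : p.Prime) (hG : IsGalois ℚ L) (f : K →+* L) (j : L →+* ℂ)
    {F : IntermediateField ℚ K} (hF : Top F p) {ψ : (K →+* ℂ) → ℚ} (hψ : DependsOn F ψ) :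
    RedL p f j ψ := by
  obtain ⟨m, hm, Ψ, hΨ⟩ := exists_multiple ψ
  refine ⟨m, hm, Ψ, hΨ, fun N => ?_⟩
  obtain ⟨k, hk⟩ := hF N
  refine ⟨k, fun u hu => ?_⟩
  have hΨF : ∀ σ τ : K →+* ℂ, (∀ x ∈ F, σ x = τ x) → Ψ σ = Ψ τ := by
    intro σ τ h
    have h1 := hΨ σ
    rw [hψ σ τ h, ← hΨ τ] at h1
    exact_mod_cast h1
  obtain ⟨v, hv⟩ := descend_gal hG (f.comp (algebraMap F K)) (pr f j Ψ u) (by
    intro c hc
    rw [pr, map_sum]
    refine Fintype.sum_equiv (Equiv.mulRight c⁻¹) _ _ ?_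
    intro γ
    have e1 : Ψ (emb f j ((Equiv.mulRight c⁻¹) γ)) = Ψ (emb f j γ) := by
      apply hΨF
      intro x hx
      have hcx : c (f x) = f x := hc ⟨x, hx⟩
      have hcx' : c⁻¹ (f x) = f x := by
        have h1 : (c⁻¹ * c) (f x) = f x := by rw [inv_mul_cancel]; rfl
        rw [AlgEquiv.mul_apply, hcx] at h1
        exact h1
      change j (γ (c⁻¹ (f x))) = j (γ (f x))
      rw [hcx']
    rw [e1, map_zsmul]
    congr 1)
  have hU : pr f j Ψ u ∈ U L p k :=
    AddSubgroup.sum_mem _ fun γ _ => AddSubgroup.zsmul_mem _ (um_U _ hu) _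
  rw [← hv] at hU
  have hvT := hk v (descend_U' _ hp v hU)
  refine ⟨um (algebraMap F K) v, um_T _ hvT, ?_⟩
  rw [← hv]
  rfl

theorem redL_of_span {p : ℕ} (f : K →+* L) (j : L →+* ℂ) {S : Set ((K →+* ℂ) → ℚ)}
    (hS : ∀ ψ ∈ S, RedL p f j ψ) {ψ : (K →+* ℂ) → ℚ} (hψ : ψ ∈ Submodule.span ℚ S) :
    RedL p f j ψ := by
  induction hψ using Submodule.span_induction with
  | mem ψ h => exact hS ψ h
  | zero =>
    refine ⟨1, one_pos, 0, by simp, fun N => ⟨0, fun u _ => ⟨0, AddSubgroup.zero_mem _, ?_⟩⟩⟩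
    rw [pr, map_zero]
    symm
    apply Finset.sum_eq_zero
    intro γ _
    rw [Pi.zero_apply, zero_smul]
  | add ψ ψ' _ _ h h' =>
    obtain ⟨m, hm, Ψ, hΨ, h⟩ := h
    obtain ⟨m', hm', Ψ', hΨ', h'⟩ := h'
    refine ⟨m * m', Nat.mul_pos hm hm', (m' : ℤ) • Ψ + (m : ℤ) • Ψ', ?_, ?_⟩
    · intro σ
      simp only [Pi.add_apply, Pi.smul_apply, smul_eq_mul]
      push_cast
      rw [hΨ, hΨ']
      ring
    · intro N
      obtain ⟨k, hk⟩ := h N
      obtain ⟨k', hk'⟩ := h' N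
      refine ⟨max k k', fun u hu => ?_⟩
      have hmono : ∀ i ≤ max k k', u ∈ U L p i := by
        intro i hi
        rw [mem_U] at hu ⊢
        exact dvd_trans (pow_dvd_pow _ hi) hu
      obtain ⟨t, ht, e⟩ := hk u (hmono _ (le_max_left _ _))
      obtain ⟨t', ht', e'⟩ := hk' u (hmono _ (le_max_right _ _))
      refine ⟨(m' : ℤ) • t + (m : ℤ) • t', AddSubgroup.add_mem _ (AddSubgroup.zsmul_mem _ ht _)
        (AddSubgroup.zsmul_mem _ ht' _), ?_⟩
      rw [map_add, map_zsmul, map_zsmul, e, e', pr, pr, pr]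
      have hgen : ∀ (M : Type) [AddCommGroup M] (a b : ℤ) (x y : (L ≃ₐ[ℚ] L) → ℤ)
          (z : (L ≃ₐ[ℚ] L) → M), a • ∑ γ, x γ • z γ + b • ∑ γ, y γ • z γ =
            ∑ γ, (a * x γ + b * y γ) • z γ := by
        intro M _ a b x y z
        rw [Finset.smul_sum, Finset.smul_sum, ← Finset.sum_add_distrib]
        refine Finset.sum_congr rfl fun γ _ => ?_
        rw [smul_smul, smul_smul, ← add_smul]
      exact hgen _ _ _ _ _ _
  | smul c ψ _ h =>
    obtain ⟨m, hm, Ψ, hΨ, h⟩ := h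
    refine ⟨m * c.den, Nat.mul_pos hm c.den_pos, c.num • Ψ, ?_, ?_⟩
    · intro σ
      simp only [Pi.smul_apply, smul_eq_mul]
      push_cast
      rw [hΨ]
      have h1 : (c.den : ℚ) * c = c.num := by
        rw [mul_comm]; exact Rat.mul_den_eq_num c
      rw [← h1]
      ring
    · intro N
      obtain ⟨k, hk⟩ := h N
      refine ⟨k, fun u hu => ?_⟩
      obtain ⟨t, ht, e⟩ := hk u hu
      refine ⟨c.num • t, AddSubgroup.zsmul_mem _ ht _, ?_⟩
      rw [map_zsmul, e, pr, pr]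
      have hgen : ∀ (M : Type) [AddCommGroup M] (a : ℤ) (x : (L ≃ₐ[ℚ] L) → ℤ)
          (z : (L ≃ₐ[ℚ] L) → M), a • ∑ γ, x γ • z γ = ∑ γ, (a * x γ) • z γ := by
        intro M _ a x z
        rw [Finset.smul_sum]
        refine Finset.sum_congr rfl fun γ _ => ?_
        rw [smul_smul]
      exact hgen _ _ _ _

end Step

section Ring

variable {G : Type} [Group G] [Finite G]

/-- `1 = e + f`, with `e` in the left ideal generated by the `(1 + c) h`, and `(1 + c) h f = 0`. -/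
theorem exists_split (c : G) : ∃ e f : MonoidAlgebra ℚ G, e + f = 1 ∧
    e ∈ Submodule.span (MonoidAlgebra ℚ G)
      {x : MonoidAlgebra ℚ G | ∃ h : G, x = (1 + MonoidAlgebra.single c 1) *
        MonoidAlgebra.single h 1} ∧
    ∀ h : G, (1 + MonoidAlgebra.single c 1) * MonoidAlgebra.single h 1 * f = 0 := by
  have hne : NeZero (Nat.card G : ℚ) := ⟨by exact_mod_cast Nat.card_pos.ne'⟩
  obtain ⟨J, hJ⟩ := MonoidAlgebra.Submodule.exists_isCompl (Submodule.span (MonoidAlgebra ℚ G)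
      {x : MonoidAlgebra ℚ G | ∃ h : G, x = (1 + MonoidAlgebra.single c 1) *
        MonoidAlgebra.single h 1})
  have h1 : (1 : MonoidAlgebra ℚ G) ∈ (Submodule.span (MonoidAlgebra ℚ G)
      {x : MonoidAlgebra ℚ G | ∃ h : G, x = (1 + MonoidAlgebra.single c 1) *
        MonoidAlgebra.single h 1}) ⊔ J := by
    rw [hJ.sup_eq_top]; exact Submodule.mem_top
  obtain ⟨e, he, f, hf, hef⟩ := Submodule.mem_sup.mp h1
  refine ⟨e, f, hef, he, fun h => ?_⟩
  set i := (1 + MonoidAlgebra.single c 1) * (MonoidAlgebra.single h 1 : MonoidAlgebra ℚ G) with hi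
  have hi1 : i ∈ Submodule.span (MonoidAlgebra ℚ G)
      {x : MonoidAlgebra ℚ G | ∃ h : G, x = (1 + MonoidAlgebra.single c 1) *
        MonoidAlgebra.single h 1} := Submodule.subset_span ⟨h, rfl⟩
  have h2 : i * f = i - i * e := by
    have : i * (e + f) = i := by rw [hef, mul_one]
    rw [mul_add] at this
    exact eq_sub_of_add_eq' this
  have h3 : i * f ∈ Submodule.span (MonoidAlgebra ℚ G)
      {x : MonoidAlgebra ℚ G | ∃ h : G, x = (1 + MonoidAlgebra.single c 1) *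
        MonoidAlgebra.single h 1} := by
    rw [h2]
    exact Submodule.sub_mem _ hi1 (Submodule.smul_mem _ i he)
  have h4 : i * f ∈ J := Submodule.smul_mem _ i hf
  have h5 := Submodule.disjoint_def.mp hJ.disjoint _ h3 h4
  exact h5

end Ring

section Real

variable {K L : Type} [Field K] [NumberField K] [Field L] [NumberField L]

open Classical in
/-- the automorphisms which fix `f(K)` -/
noncomputable def Uf (f : K →+* L) : Finset (L ≃ₐ[ℚ] L) :=
  Finset.univ.filter (fun γ => ∀ x : K, γ (f x) = f x)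

open Classical in
theorem sum_emb (f : K →+* L) (j : L →+* ℂ) (a : L ≃ₐ[ℚ] L) (y : Additive (𝓞 L)ˣ) :
    ∑ γ : L ≃ₐ[ℚ] L, (if emb f j γ = emb f j a then (1 : ℤ) else 0) • rho L γ⁻¹ y =
      ∑ γ ∈ Uf f, rho L γ⁻¹ (rho L a⁻¹ y) := by
  rw [Uf, Finset.sum_filter]
  symm
  refine Fintype.sum_equiv (Equiv.mulLeft a) _ _ ?_
  intro γ
  have h1 : emb f j ((Equiv.mulLeft a) γ) = emb f j a ↔ ∀ x : K, γ (f x) = f x := by
    constructor
    · intro h x
      have h2 := DFunLike.congr_fun h x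
      have h3 : a (γ (f x)) = a (f x) := j.injective h2
      exact a.injective h3
    · intro h
      ext x
      change j (a (γ (f x))) = j (a (f x))
      rw [h x]
  by_cases h : ∀ x : K, γ (f x) = f x
  · rw [if_pos h, if_pos (h1.mpr h), one_smul]
    have e2 : rho L ((Equiv.mulLeft a) γ)⁻¹ = rho L γ⁻¹ * rho L a⁻¹ := by
      rw [← map_mul]
      congr 1
    rw [e2]
    rfl
  · rw [if_neg h, if_neg (fun h' => h (h1.mp h')), zero_smul]

/-- the property of elements of the group ring which is proved by induction -/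
def QQ (p : ℕ) (f : K →+* L) (z : MonoidAlgebra ℚ (L ≃ₐ[ℚ] L)) : Prop :=
  ∃ m : ℕ, 0 < m ∧ ∃ z' : MonoidAlgebra ℤ (L ≃ₐ[ℚ] L), toQ _ z' = (m : ℚ) • z ∧
    ∀ N, ∃ k, ∀ y ∈ U L p k, ∃ t ∈ T K p N, um f t = ∑ γ ∈ Uf f, rho L γ⁻¹ (act (rho L) z' y)

theorem act_add (x y : MonoidAlgebra ℤ (L ≃ₐ[ℚ] L)) (u : Additive (𝓞 L)ˣ) :
    act (rho L) (x + y) u = act (rho L) x u + act (rho L) y u := by
  rw [act, map_add]; rfl

theorem act_nsmul (n : ℕ) (x : MonoidAlgebra ℤ (L ≃ₐ[ℚ] L)) (u : Additive (𝓞 L)ˣ) :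
    act (rho L) (n • x) u = n • act (rho L) x u := by
  rw [act, map_nsmul]; rfl

theorem act_zsmul (n : ℤ) (x : MonoidAlgebra ℤ (L ≃ₐ[ℚ] L)) (u : Additive (𝓞 L)ˣ) :
    act (rho L) (n • x) u = n • act (rho L) x u := by
  rw [act, map_zsmul]; rfl

theorem act_mul (x y : MonoidAlgebra ℤ (L ≃ₐ[ℚ] L)) (u : Additive (𝓞 L)ˣ) :
    act (rho L) (x * y) u = act (rho L) x (act (rho L) y u) := by
  rw [act, map_mul]; rfl

theorem act_single (g : L ≃ₐ[ℚ] L) (u : Additive (𝓞 L)ˣ) :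
    act (rho L) (MonoidAlgebra.single g 1) u = rho L g u := by
  rw [act, MonoidAlgebra.lift_single, one_smul]

theorem act_one (u : Additive (𝓞 L)ˣ) : act (rho L) 1 u = u := by
  rw [act, map_one]; rfl

theorem QQ_zero (p : ℕ) (f : K →+* L) : QQ p f 0 := by
  refine ⟨1, one_pos, 0, by simp, fun N => ⟨0, fun y _ => ⟨0, AddSubgroup.zero_mem _, ?_⟩⟩⟩
  rw [map_zero]
  symm
  apply Finset.sum_eq_zero
  intro γ _
  rw [act, map_zero]
  exact map_zero _

theorem QQ_add {p : ℕ} {f : K →+* L} {z w : MonoidAlgebra ℚ (L ≃ₐ[ℚ] L)} (hz : QQ p f z)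
    (hw : QQ p f w) : QQ p f (z + w) := by
  obtain ⟨m, hm, z', e, h⟩ := hz
  obtain ⟨n, hn, w', e', h'⟩ := hw
  refine ⟨m * n, Nat.mul_pos hm hn, n • z' + m • w', ?_, fun N => ?_⟩
  · rw [map_add, map_nsmul, map_nsmul, e, e', ← Nat.cast_smul_eq_nsmul ℚ,
      ← Nat.cast_smul_eq_nsmul ℚ, smul_smul, smul_smul, smul_add]
    push_cast
    rw [mul_comm (n : ℚ) m]
  · obtain ⟨k, hk⟩ := h N
    obtain ⟨k', hk'⟩ := h' N
    refine ⟨max k k', fun y hy => ?_⟩
    have hmono : ∀ i ≤ max k k', y ∈ U L p i := by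
      intro i hi
      rw [mem_U] at hy ⊢
      exact dvd_trans (pow_dvd_pow _ hi) hy
    obtain ⟨t, ht, e⟩ := hk y (hmono _ (le_max_left _ _))
    obtain ⟨t', ht', e'⟩ := hk' y (hmono _ (le_max_right _ _))
    refine ⟨n • t + m • t', AddSubgroup.add_mem _ (AddSubgroup.nsmul_mem _ ht _)
      (AddSubgroup.nsmul_mem _ ht' _), ?_⟩
    rw [map_add, map_nsmul, map_nsmul, e, e', ← Finset.sum_nsmul, ← Finset.sum_nsmul,
      ← Finset.sum_add_distrib]
    refine Finset.sum_congr rfl fun γ _ => ?_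
    rw [act_add, act_nsmul, act_nsmul, map_add, map_nsmul, map_nsmul]

theorem QQ_smul {p : ℕ} {f : K →+* L} {z : MonoidAlgebra ℚ (L ≃ₐ[ℚ] L)} (c : ℚ)
    (hz : QQ p f z) : QQ p f (c • z) := by
  obtain ⟨m, hm, z', e, h⟩ := hz
  refine ⟨m * c.den, Nat.mul_pos hm c.den_pos, c.num • z', ?_, fun N => ?_⟩
  · rw [map_zsmul, e, ← Int.cast_smul_eq_zsmul ℚ, smul_smul, smul_smul]
    congr 1
    push_cast
    have : (c.den : ℚ) * c = c.num := by
      rw [mul_comm]; exact Rat.mul_den_eq_num c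
    rw [mul_assoc, this, mul_comm]
  · obtain ⟨k, hk⟩ := h N
    refine ⟨k, fun y hy => ?_⟩
    obtain ⟨t, ht, e⟩ := hk y hy
    refine ⟨c.num • t, AddSubgroup.zsmul_mem _ ht _, ?_⟩
    rw [map_zsmul, e]
    have hgen : ∀ (M : Type) [AddCommGroup M] (a : ℤ) (s : Finset (L ≃ₐ[ℚ] L))
        (z : (L ≃ₐ[ℚ] L) → M), a • ∑ γ ∈ s, z γ = ∑ γ ∈ s, a • z γ :=
      fun M _ a s z => Finset.smul_sum
    rw [hgen]
    refine Finset.sum_congr rfl fun γ _ => ?_
    rw [act_zsmul, map_zsmul]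

open Classical in
theorem QQ_gen {p : ℕ} (hp : p.Prime) (hG : IsGalois ℚ L) (f : K →+* L) (j : L →+* ℂ)
    (c : L ≃ₐ[ℚ] L) (hc : ∀ x, j (c x) = (starRingEnd ℂ) (j x)) (hcc : c⁻¹ = c)
    (hR : ∀ φ : (K →+* ℂ) → ℚ, (∀ σ : K →+* ℂ, φ ((starRingEnd ℂ).comp σ) = φ σ) → RedL p f j φ)
    (g h : L ≃ₐ[ℚ] L) :
    QQ p f (MonoidAlgebra.single g 1 * ((1 + MonoidAlgebra.single c 1) *
      MonoidAlgebra.single h 1)) := by
  have hemb : (starRingEnd ℂ).comp (emb f j g⁻¹) = emb f j (c * g⁻¹) := by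
    ext x
    exact (hc (g⁻¹ (f x))).symm
  obtain ⟨m, hm, Ψ, hΨ, hmain⟩ :=
    hR (fun σ => (if σ = emb f j g⁻¹ then 1 else 0) + (if σ = emb f j (c * g⁻¹) then 1 else 0)) (by
      intro σ
      have h1 : ((starRingEnd ℂ).comp σ = emb f j g⁻¹) ↔ σ = emb f j (c * g⁻¹) := by
        rw [← hemb]
        constructor
        · intro h
          rw [← h]
          ext x
          exact (Complex.conj_conj _).symm
        · intro h
          rw [h]
          ext x
          exact Complex.conj_conj _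
      have h2 : ((starRingEnd ℂ).comp σ = emb f j (c * g⁻¹)) ↔ σ = emb f j g⁻¹ := by
        rw [← hemb]
        constructor
        · intro h
          ext x
          have h3 := congrArg (starRingEnd ℂ) (DFunLike.congr_fun h x)
          simpa using h3
        · intro h
          rw [h]
      rw [if_congr h1 rfl rfl, if_congr h2 rfl rfl]
      exact add_comm _ _)
  have hΨ' : ∀ σ, Ψ σ = (m : ℤ) * ((if σ = emb f j g⁻¹ then 1 else 0) +
      (if σ = emb f j (c * g⁻¹) then 1 else 0)) := by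
    intro σ
    have h1 := hΨ σ
    beta_reduce at h1
    have h2 : (Ψ σ : ℚ) = (((m : ℤ) * ((if σ = emb f j g⁻¹ then 1 else 0) +
      (if σ = emb f j (c * g⁻¹) then 1 else 0)) : ℤ) : ℚ) := by
      rw [h1]
      push_cast
      rfl
    exact_mod_cast h2
  refine ⟨m, hm, m • (MonoidAlgebra.single g 1 * ((1 + MonoidAlgebra.single c 1) *
      MonoidAlgebra.single h 1)), ?_, fun N => ?_⟩
  · rw [map_nsmul, map_mul, map_mul, map_add, map_one, toQ_single, toQ_single, toQ_single,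
      ← Nat.cast_smul_eq_nsmul ℚ, Int.cast_one]
  · obtain ⟨k, hk⟩ := hmain N
    refine ⟨k, fun y hy => ?_⟩
    obtain ⟨t, ht, e⟩ := hk (rho L h y) (um_U _ hy)
    refine ⟨t, ht, ?_⟩
    rw [e, pr]
    have h1 : ∀ γ : L ≃ₐ[ℚ] L, Ψ (emb f j γ) • rho L γ⁻¹ (rho L h y) =
        m • ((if emb f j γ = emb f j g⁻¹ then (1 : ℤ) else 0) • rho L γ⁻¹ (rho L h y)) +
        m • ((if emb f j γ = emb f j (c * g⁻¹) then (1 : ℤ) else 0) • rho L γ⁻¹ (rho L h y)) := by
      intro γ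
      have hgen : ∀ (M : Type) [AddCommGroup M] (n : ℕ) (a b : ℤ) (z : M),
          ((n : ℤ) * (a + b)) • z = n • (a • z) + n • (b • z) := by
        intro M _ n a b z
        rw [mul_smul, add_smul, natCast_zsmul, smul_add]
      rw [hΨ']
      exact hgen _ _ _ _ _
    rw [Finset.sum_congr rfl (fun γ _ => h1 γ), Finset.sum_add_distrib, Finset.sum_nsmul,
      Finset.sum_nsmul, sum_emb, sum_emb]
    have h2 : (c * g⁻¹)⁻¹ = g * c := by rw [mul_inv_rev, inv_inv, hcc]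
    rw [h2, inv_inv, ← Finset.sum_nsmul, ← Finset.sum_nsmul, ← Finset.sum_add_distrib]
    refine Finset.sum_congr rfl fun γ _ => ?_
    rw [act_nsmul, act_mul, act_single, act_mul, act_add, act_one, act_single, act_single,
      map_nsmul, map_add, map_add, nsmul_add]
    have h3 : rho L (g * c) = rho L g * rho L c := map_mul _ _ _
    rw [h3]
    rfl

theorem QQ_of_mem {p : ℕ} (hp : p.Prime) (hG : IsGalois ℚ L) (f : K →+* L) (j : L →+* ℂ)
    (c : L ≃ₐ[ℚ] L) (hc : ∀ x, j (c x) = (starRingEnd ℂ) (j x)) (hcc : c⁻¹ = c)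
    (hR : ∀ φ : (K →+* ℂ) → ℚ, (∀ σ : K →+* ℂ, φ ((starRingEnd ℂ).comp σ) = φ σ) → RedL p f j φ)
    {e : MonoidAlgebra ℚ (L ≃ₐ[ℚ] L)}
    (he : e ∈ Submodule.span (MonoidAlgebra ℚ (L ≃ₐ[ℚ] L))
      {x : MonoidAlgebra ℚ (L ≃ₐ[ℚ] L) | ∃ h : L ≃ₐ[ℚ] L, x = (1 + MonoidAlgebra.single c 1) *
        MonoidAlgebra.single h 1}) : QQ p f e := by
  have key : ∀ a : MonoidAlgebra ℚ (L ≃ₐ[ℚ] L), QQ p f (a * e) := by
    induction he using Submodule.span_induction with
    | mem x hx =>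
      obtain ⟨h, rfl⟩ := hx
      intro a
      induction a using MonoidAlgebra.induction_linear with
      | zero => rw [zero_mul]; exact QQ_zero p f
      | add a b ha hb => rw [add_mul]; exact QQ_add ha hb
      | single g r =>
        have h1 : (MonoidAlgebra.single g r : MonoidAlgebra ℚ (L ≃ₐ[ℚ] L)) =
            r • MonoidAlgebra.single g 1 := by
          rw [MonoidAlgebra.smul_single, smul_eq_mul, mul_one]
        rw [h1, smul_mul_assoc]
        exact QQ_smul r (QQ_gen hp hG f j c hc hcc hR g h)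
    | zero => intro a; rw [mul_zero]; exact QQ_zero p f
    | add x y _ _ hx hy => intro a; rw [mul_add]; exact QQ_add (hx a) (hy a)
    | smul b x _ hx =>
      intro a
      rw [smul_eq_mul, ← mul_assoc]
      exact hx (a * b)
  have := key 1
  rwa [one_mul] at this

end Real

section Final

variable {K L : Type} [Field K] [NumberField K] [Field L] [NumberField L]

theorem exists_gal (hG : IsGalois ℚ L) (σ τ : L →+* ℂ) :
    ∃ c : L ≃ₐ[ℚ] L, ∀ x, σ (c x) = τ x := by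
  obtain ⟨c, hc⟩ := exists_aut_over (⊥ : IntermediateField ℚ L) inferInstance σ τ (by
    intro x hx
    obtain ⟨q, rfl⟩ := IntermediateField.mem_bot.mp hx
    rw [eq_ratCast, map_ratCast, map_ratCast])
  exact ⟨c.restrictScalars ℚ, hc⟩

theorem tors_of_conj (hG : IsGalois ℚ L) (j : L →+* ℂ) (c : L ≃ₐ[ℚ] L)
    (hc : ∀ x, j (c x) = (starRingEnd ℂ) (j x)) (y : Additive (𝓞 L)ˣ)
    (hy : ∀ h : L ≃ₐ[ℚ] L, rho L h y + rho L c (rho L h y) = 0) :
    y ∈ tors (Additive (𝓞 L)ˣ) := by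
  have h1 : Additive.toMul y ∈ Units.torsion L := by
    rw [Units.mem_torsion]
    intro w
    obtain ⟨h, hh⟩ := exists_gal hG j w.embedding
    rw [← InfinitePlace.norm_embedding_eq, ← hh]
    have h2 := hy h
    have h3 : h (((Additive.toMul y : (𝓞 L)ˣ) : 𝓞 L) : L) *
        c (h (((Additive.toMul y : (𝓞 L)ˣ) : 𝓞 L) : L)) = 1 := by
      have h4 := congrArg (fun z : Additive (𝓞 L)ˣ => (((Additive.toMul z : (𝓞 L)ˣ) : 𝓞 L) : L)) h2
      have h5 : (((Additive.toMul (rho L h y + rho L c (rho L h y)) : (𝓞 L)ˣ) : 𝓞 L) : L) =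
        (((Additive.toMul (rho L h y) : (𝓞 L)ˣ) : 𝓞 L) : L) *
        (((Additive.toMul (rho L c (rho L h y)) : (𝓞 L)ˣ) : 𝓞 L) : L) := by
        rw [toMul_add, Units.val_mul]
        exact map_mul (algebraMap (𝓞 L) L) _ _
      beta_reduce at h4
      rw [h5] at h4
      have h6 : (((Additive.toMul (0 : Additive (𝓞 L)ˣ) : (𝓞 L)ˣ) : 𝓞 L) : L) = 1 := by
        rw [toMul_zero, Units.val_one]
        exact map_one (algebraMap (𝓞 L) L)
      rw [h6] at h4
      exact h4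
    have h7 := congrArg j h3
    rw [map_mul, hc, map_one, Complex.mul_conj] at h7
    have h8 : Complex.normSq (j (h (((Additive.toMul y : (𝓞 L)ˣ) : 𝓞 L) : L))) = 1 := by
      exact_mod_cast h7
    rw [Complex.normSq_eq_norm_sq] at h8
    exact (pow_eq_one_iff_of_nonneg (norm_nonneg _) two_ne_zero).mp h8
  change IsOfFinOrder (Additive.toMul y) at h1
  rw [isOfFinOrder_iff_pow_eq_one] at h1
  exact h1

theorem exists_clear {G : Type} [Group G] (x : MonoidAlgebra ℚ G) :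
    ∃ n : ℕ, 0 < n ∧ ∃ w : MonoidAlgebra ℤ G, toQ G w = (n : ℚ) • x := by
  induction x using MonoidAlgebra.induction_linear with
  | zero => exact ⟨1, one_pos, 0, by simp⟩
  | add x y hx hy =>
    obtain ⟨m, hm, u, e⟩ := hx
    obtain ⟨n, hn, v, e'⟩ := hy
    refine ⟨m * n, Nat.mul_pos hm hn, n • u + m • v, ?_⟩
    rw [map_add, map_nsmul, map_nsmul, e, e', ← Nat.cast_smul_eq_nsmul ℚ,
      ← Nat.cast_smul_eq_nsmul ℚ, smul_smul, smul_smul, smul_add]
    push_cast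
    rw [mul_comm (n : ℚ) m]
  | single g r =>
    refine ⟨r.den, r.den_pos, MonoidAlgebra.single g r.num, ?_⟩
    rw [toQ_single, MonoidAlgebra.smul_single, smul_eq_mul]
    congr 1
    rw [mul_comm]
    exact (Rat.mul_den_eq_num r).symm

theorem tors_le_tor {M : Type} [AddCommGroup M] {p N : ℕ} {t : M} (ht : t ∈ tors M) :
    t ∈ tor M p N := ⟨t, 0, by rw [smul_zero, add_zero], ht⟩

theorem top_of_redL {p : ℕ} (hp : p.Prime) (hG : IsGalois ℚ L) (f : K →+* L) (j : L →+* ℂ)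
    (h : ∀ φ : (K →+* ℂ) → ℚ, (∀ σ : K →+* ℂ, φ ((starRingEnd ℂ).comp σ) = φ σ) → RedL p f j φ) :
    Top K p := by
  classical
  obtain ⟨c, hc⟩ := exists_gal hG j ((starRingEnd ℂ).comp j)
  have hc' : ∀ x, j (c x) = (starRingEnd ℂ) (j x) := hc
  have hcc : c⁻¹ = c := by
    rw [inv_eq_iff_mul_eq_one]
    ext x
    apply j.injective
    change j (c (c x)) = j x
    rw [hc', hc', Complex.conj_conj]
  obtain ⟨e, f0, hef, he, hf0⟩ := exists_split c
  obtain ⟨m, hm, z', hz', hmain⟩ := QQ_of_mem hp hG f j c hc' hcc h he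
  obtain ⟨n, hn, w', hw'⟩ := exists_clear f0
  have hsum : n • z' + m • w' = ((m * n : ℕ) : MonoidAlgebra ℤ (L ≃ₐ[ℚ] L)) := by
    apply toQ_injective
    rw [map_add, map_nsmul, map_nsmul, hz', hw', map_natCast, ← Nat.cast_smul_eq_nsmul ℚ,
      ← Nat.cast_smul_eq_nsmul ℚ, smul_smul, smul_smul, mul_comm (n : ℚ) m, ← smul_add, hef,
      ← Nat.cast_mul, Nat.cast_smul_eq_nsmul, nsmul_one]
  have hw0 : ∀ g : L ≃ₐ[ℚ] L, (1 + MonoidAlgebra.single c 1) * MonoidAlgebra.single g 1 * w' = 0 := by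
    intro g
    apply toQ_injective
    rw [map_mul, map_mul, map_add, map_one, toQ_single, toQ_single, hw', map_zero, Int.cast_one,
      mul_smul_comm, hf0 g, smul_zero]
  have htw : ∀ x : Additive (𝓞 L)ˣ, act (rho L) w' x ∈ tors (Additive (𝓞 L)ˣ) := by
    intro x
    apply tors_of_conj hG j c hc'
    intro g
    have h1 : act (rho L) ((1 + MonoidAlgebra.single c 1) * MonoidAlgebra.single g 1 * w') x = 0 := by
      rw [hw0 g, act, map_zero]
      rfl
    rw [act_mul, act_mul, act_add, act_one, act_single, act_single] at h1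
    exact h1
  have hUf : 0 < (Uf f).card := by
    apply Finset.card_pos.mpr
    refine ⟨1, ?_⟩
    rw [Uf, Finset.mem_filter]
    exact ⟨Finset.mem_univ _, fun x => rfl⟩
  intro N
  obtain ⟨v, hv⟩ := remove_factor' (M := Additive (𝓞 K)ˣ) hp (m := (Uf f).card * (m * n))
    (Nat.mul_pos hUf (Nat.mul_pos hm hn))
  obtain ⟨k, hk⟩ := hmain (N + v)
  refine ⟨k, fun u hu => hv N u ?_⟩
  obtain ⟨t, ht, et⟩ := hk (um f u) (um_U f hu)
  -- the relation in the units of `L`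
  have h1 : n • act (rho L) z' (um f u) + m • act (rho L) w' (um f u) = (m * n) • um f u := by
    rw [← act_nsmul, ← act_nsmul, ← act_add, hsum, ← nsmul_one, act_nsmul, act_one]
  have h2 : ∑ γ ∈ Uf f, rho L γ⁻¹ (n • act (rho L) z' (um f u) + m • act (rho L) w' (um f u)) =
      n • um f t + m • ∑ γ ∈ Uf f, rho L γ⁻¹ (act (rho L) w' (um f u)) := by
    rw [et, ← Finset.sum_nsmul, ← Finset.sum_nsmul, ← Finset.sum_add_distrib]
    refine Finset.sum_congr rfl fun γ _ => ?_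
    rw [map_add, map_nsmul, map_nsmul]
  have h3 : ∑ γ ∈ Uf f, rho L γ⁻¹ ((m * n) • um f u) = ((Uf f).card * (m * n)) • um f u := by
    have h4 : ∀ γ ∈ Uf f, rho L γ⁻¹ ((m * n) • um f u) = (m * n) • um f u := by
      intro γ hγ
      rw [map_nsmul]
      congr 1
      apply unit_ext
      rw [rho_apply, um_apply, um_apply]
      rw [Uf, Finset.mem_filter] at hγ
      have h5 : (γ⁻¹ * γ) (f (((Additive.toMul u : (𝓞 K)ˣ) : 𝓞 K) : K)) =
        f (((Additive.toMul u : (𝓞 K)ˣ) : 𝓞 K) : K) := by rw [inv_mul_cancel]; rfl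
      rw [AlgEquiv.mul_apply, hγ.2] at h5
      exact h5
    rw [Finset.sum_congr rfl h4, Finset.sum_const]
    have hgen : ∀ (M : Type) [AddCommGroup M] (a b : ℕ) (z : M), a • (b • z) = (a * b) • z :=
      fun M _ a b z => (mul_smul a b z).symm
    exact hgen _ _ _ _
  rw [h1, h3] at h2
  have h4 : um f (((Uf f).card * (m * n)) • u - n • t) ∈ tors (Additive (𝓞 L)ˣ) := by
    rw [map_sub, map_nsmul, map_nsmul, h2, add_sub_cancel_left]
    exact AddSubgroup.nsmul_mem _ (AddSubgroup.sum_mem _ fun γ _ =>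
      tors_map (um ((γ⁻¹ : L ≃ₐ[ℚ] L) : L →+* L)) (htw _)) _
  have h5 : ((Uf f).card * (m * n)) • u - n • t ∈ tors (Additive (𝓞 K)ˣ) := by
    obtain ⟨k', hk', hk''⟩ := h4
    refine ⟨k', hk', um_injective f ?_⟩
    rw [map_nsmul, hk'', map_zero]
  have h6 := AddSubgroup.add_mem _ (tors_le_tor (p := p) (N := N + v) h5)
    (AddSubgroup.nsmul_mem _ ht n)
  have h7 : ((Uf f).card * (m * n)) • u - n • t + n • t = ((Uf f).card * (m * n)) • u :=
    sub_add_cancel _ _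
  rw [h7] at h6
  exact h6

theorem top_of_decomposableBy {K : Type} [Field K] [NumberField K] {p : ℕ} (hp : p.Prime)
    {𝓕 : Set (IntermediateField ℚ K)} (h : DecomposableBy K 𝓕) (hF : ∀ F ∈ 𝓕, Top F p) :
    Top K p := by
  obtain ⟨L, _, _, hG, ⟨f⟩⟩ := exists_galois K
  obtain ⟨j⟩ : Nonempty (L →+* ℂ) := inferInstance
  refine top_of_redL hp hG f j fun φ hφ => redL_of_span f j ?_ (h φ hφ)
  rintro ψ ⟨F, hF', hψ⟩
  exact redL_of_dependsOn hp hG f j (hF F hF') hψ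

end Final

end Pool.Agent.TH613.LP
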