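import Pool.Agent.TH613.LP.Real

/-!
# Leopoldt's conjecture and indecomposable number fields
-/

set_option autoImplicit false

namespace Pool.Agent.TH613.LP

open NumberField Pool.Agent.TH613.ZK

section

variable {K : Type} [Field K] [NumberField K]

/-- A function invariant under `C` depends only on the restrictions to the field fixed by `C`. -/
theorem dependsOn_of_invariant (C : Subgroup (K ≃ₐ[ℚ] K)) {φ : (K →+* ℂ) → ℚ}
    (h : ∀ c ∈ C, ∀ σ : K →+* ℂ, φ (σ.comp (c : K →+* K)) = φ σ) :
    DependsOn (IntermediateField.fixedField C) φ := by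
  intro σ τ hστ
  obtain ⟨c, hc, hc'⟩ := exists_mem_aut C σ τ hστ
  have e : τ = σ.comp (c : K →+* K) := by
    ext x
    exact (hc' x).symm
  rw [e, h c hc]

theorem dependsOn_zpowers (c : K ≃ₐ[ℚ] K) {φ : (K →+* ℂ) → ℚ}
    (h : ∀ σ : K →+* ℂ, φ (σ.comp (c : K →+* K)) = φ σ) :
    DependsOn (IntermediateField.fixedField (Subgroup.zpowers c)) φ := by
  apply dependsOn_of_invariant
  let S : Subgroup (K ≃ₐ[ℚ] K) :=
    { carrier := {g | ∀ σ : K →+* ℂ, φ (σ.comp (g : K →+* K)) = φ σ}
      mul_mem' := by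
        intro a b ha hb σ
        have h1 := hb (σ.comp (a : K →+* K))
        rw [ha σ] at h1
        exact h1
      one_mem' := by
        intro σ
        rfl
      inv_mem' := by
        intro a ha σ
        have h1 := ha (σ.comp ((a⁻¹ : K ≃ₐ[ℚ] K) : K →+* K))
        rw [← h1]
        congr 1
        ext x
        change σ (a⁻¹ (a x)) = σ x
        have h2 : (a⁻¹ * a) x = x := by rw [inv_mul_cancel]; rfl
        rw [AlgEquiv.mul_apply] at h2
        rw [h2] }
  have hle : Subgroup.zpowers c ≤ S := by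
    rw [Subgroup.zpowers_le]
    exact h
  intro g hg
  exact hle hg

/-- CM fields are decomposable by their maximal totally real subfield. -/
theorem decomposableBy_of_isCM (hCM : IsCMField K) {𝓕 : Set (IntermediateField ℚ K)}
    (h𝓕 : IntermediateField.fixedField (Subgroup.zpowers (cc K)) ∈ 𝓕) : DecomposableBy K 𝓕 := by
  intro φ hφ
  apply Submodule.subset_span
  refine ⟨_, h𝓕, dependsOn_zpowers _ fun σ => ?_⟩
  rw [← hφ σ]
  congr 1
  ext x
  exact IsCMField.complexEmbedding_complexConj K σ x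

/-- A Galois field which is not totally real is decomposable by the fields fixed by the complex
conjugations. -/
theorem decomposableBy_of_not_real (hG : IsGalois ℚ K) (hR : ¬ IsTotallyReal K) :
    DecomposableBy K {F | F ≠ ⊤} := by
  classical
  intro φ hφ
  have key : ∀ σ : K →+* ℂ, (fun τ : K →+* ℂ => (if τ = σ then (1 : ℚ) else 0) +
      (if τ = (starRingEnd ℂ).comp σ then 1 else 0)) ∈
      Submodule.span ℚ {ψ | ∃ F ∈ {F : IntermediateField ℚ K | F ≠ ⊤}, DependsOn F ψ} := by
    intro σ
    obtain ⟨c, hc⟩ := exists_gal hG σ ((starRingEnd ℂ).comp σ)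
    have hc1 : c ≠ 1 := by
      rintro rfl
      apply hR
      refine ⟨fun v => ?_⟩
      rw [InfinitePlace.isReal_iff, ComplexEmbedding.isReal_iff]
      obtain ⟨g, hg⟩ := exists_gal hG σ v.embedding
      ext x
      rw [ComplexEmbedding.conjugate_coe_eq, ← hg x]
      exact (hc (g x)).symm
    have hcc : ∀ x, c (c x) = x := by
      intro x
      apply σ.injective
      rw [hc, RingHom.comp_apply, hc, RingHom.comp_apply, Complex.conj_conj]
    have hinj : ∀ τ τ' : K →+* ℂ, τ.comp (c : K →+* K) = τ' ↔ τ = τ'.comp (c : K →+* K) := by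
      intro τ τ'
      constructor
      · rintro rfl
        ext x
        change τ x = τ (c (c x))
        rw [hcc]
      · rintro rfl
        ext x
        change τ' (c (c x)) = τ' x
        rw [hcc]
    have e1 : σ.comp (c : K →+* K) = (starRingEnd ℂ).comp σ := by
      ext x
      exact hc x
    have e2 : ((starRingEnd ℂ).comp σ).comp (c : K →+* K) = σ := by
      rw [← e1]
      ext x
      change σ (c (c x)) = σ x
      rw [hcc]
    apply Submodule.subset_span
    refine ⟨_, fixedField_ne_top (C := Subgroup.zpowers c)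
      (fun h => hc1 (Subgroup.zpowers_eq_bot.mp h)), dependsOn_zpowers c fun τ => ?_⟩
    have h1 := hinj τ σ
    have h2 := hinj τ ((starRingEnd ℂ).comp σ)
    rw [e1] at h1
    rw [e2] at h2
    beta_reduce
    rw [if_congr h1 rfl rfl, if_congr h2 rfl rfl]
    exact add_comm _ _
  have h1 : φ = ∑ σ : K →+* ℂ, ((1 / 2 : ℚ) * φ σ) • (fun τ : K →+* ℂ =>
      (if τ = σ then (1 : ℚ) else 0) + (if τ = (starRingEnd ℂ).comp σ then 1 else 0)) := by
    funext τ
    rw [Finset.sum_apply]
    have h2 : ∀ σ : K →+* ℂ, (((1 / 2 : ℚ) * φ σ) • (fun τ : K →+* ℂ =>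
      (if τ = σ then (1 : ℚ) else 0) + (if τ = (starRingEnd ℂ).comp σ then 1 else 0))) τ =
        (if τ = σ then (1 / 2 : ℚ) * φ σ else 0) +
        (if (starRingEnd ℂ).comp τ = σ then (1 / 2 : ℚ) * φ σ else 0) := by
      intro σ
      have h3 : τ = (starRingEnd ℂ).comp σ ↔ (starRingEnd ℂ).comp τ = σ := by
        constructor
        · rintro rfl
          ext x
          exact Complex.conj_conj _
        · rintro rfl
          ext x
          exact (Complex.conj_conj _).symm
      rw [Pi.smul_apply, if_congr h3 rfl rfl, smul_eq_mul, mul_add, mul_ite, mul_ite, mul_one,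
        mul_zero]
    rw [Finset.sum_congr rfl (fun σ _ => h2 σ), Finset.sum_add_distrib, Finset.sum_ite_eq,
      Finset.sum_ite_eq, if_pos (Finset.mem_univ _), if_pos (Finset.mem_univ _), hφ]
    ring
  rw [h1]
  exact Submodule.sum_mem _ fun σ _ => Submodule.smul_mem _ _ (key σ)

/-- A relation between norm elements of subgroups in a family. -/
theorem decomposableBy_of_rel {𝓒 : Subgroup (K ≃ₐ[ℚ] K) → Prop} (h : 1 ∈ relIdeal 𝓒)
    {𝓕 : Set (IntermediateField ℚ K)}
    (h𝓕 : ∀ C, 𝓒 C → ∀ a : K ≃ₐ[ℚ] K, (IntermediateField.fixedField C).map (a : K →ₐ[ℚ] K) ∈ 𝓕) :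
    DecomposableBy K 𝓕 := by
  intro φ _
  have hfin : Finite (K ≃ₐ[ℚ] K) := inferInstance
  suffices hs : ∀ x ∈ relIdeal 𝓒,
      (MonoidAlgebra.lift ℚ (Module.End ℚ ((K →+* ℂ) → ℚ)) (K ≃ₐ[ℚ] K) (tau K) x) φ ∈
        Submodule.span ℚ {ψ | ∃ F ∈ 𝓕, DependsOn F ψ} by
    have h1 := hs 1 h
    rwa [map_one] at h1
  intro x hx
  unfold relIdeal at hx
  induction hx using Submodule.span_induction with
  | mem x hx =>
    obtain ⟨C, a, b, hC, rfl⟩ := hx
    apply Submodule.subset_span
    refine ⟨_, h𝓕 C hC a, ?_⟩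
    have e : (MonoidAlgebra.lift ℚ (Module.End ℚ ((K →+* ℂ) → ℚ)) (K ≃ₐ[ℚ] K) (tau K)
        (MonoidAlgebra.single a 1 * normElt C * MonoidAlgebra.single b 1)) φ =
        tau K a (∑ᶠ c : C, tau K c (tau K b φ)) := by
      rw [map_mul, map_mul, MonoidAlgebra.lift_single, MonoidAlgebra.lift_single, one_smul,
        one_smul]
      change tau K a ((MonoidAlgebra.lift ℚ (Module.End ℚ ((K →+* ℂ) → ℚ)) (K ≃ₐ[ℚ] K) (tau K)
        (normElt C)) (tau K b φ)) = _
      congr 1
      let _ := Fintype.ofFinite C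
      rw [normElt, finsum_eq_sum_of_fintype, finsum_eq_sum_of_fintype, map_sum,
        LinearMap.sum_apply]
      refine Finset.sum_congr rfl fun c _ => ?_
      rw [MonoidAlgebra.lift_single, one_smul]
    rw [e]
    exact dependsOn_norm C a _
  | zero => rw [map_zero]; exact Submodule.zero_mem _
  | add u v _ _ hu hv => rw [map_add]; exact Submodule.add_mem _ hu hv
  | smul c u _ hu => rw [map_smul]; exact Submodule.smul_mem _ _ hu

theorem decomposableBy_of_normRelation (h : HasNormRelation (K ≃ₐ[ℚ] K)) :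
    DecomposableBy K {F | F ≠ ⊤} :=
  decomposableBy_of_rel (𝓒 := fun C => C ≠ ⊥) h fun _ hC a => map_ne_top (fixedField_ne_top hC) a

theorem decomposableBy_of_normalNormRelation (hG : IsGalois ℚ K)
    (h : HasNormalNormRelation (K ≃ₐ[ℚ] K)) : DecomposableBy K {F | F ≠ ⊤ ∧ IsGalois ℚ F} :=
  decomposableBy_of_rel (𝓒 := fun C => C.Normal ∧ C ≠ ⊥) h (by
    rintro C ⟨hCn, hC⟩ a
    refine ⟨map_ne_top (fixedField_ne_top hC) a, ?_⟩
    have h1 : IsGalois ℚ (IntermediateField.fixedField C) :=
      IsGalois.of_fixedField_normal_subgroup C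
    exact IsGalois.of_algEquiv (IntermediateField.equivMap _ (a : K →ₐ[ℚ] K)))

end

theorem finrank_lt_of_ne_top {K : Type} [Field K] [NumberField K] {F : IntermediateField ℚ K}
    (hF : F ≠ ⊤) : Module.finrank ℚ F < Module.finrank ℚ K := by
  have h1 := Module.finrank_mul_finrank ℚ F K
  have h2 : 0 < Module.finrank ℚ F := Module.finrank_pos
  have h3 : Module.finrank F K ≠ 1 := by
    intro h4
    apply hF
    exact IntermediateField.finrank_eq_one_iff_eq_top.mp h4
  have h4 : 0 < Module.finrank F K := Module.finrank_pos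
  rw [← h1]
  exact lt_mul_of_one_lt_right h2 (by omega)

theorem all_of_indec {p : ℕ} (hp : p.Prime)
    (h : ∀ (K : Type) [Field K] [NumberField K], ¬ DecomposableBy K {F | F ≠ ⊤} → Top K p)
    (n : ℕ) :
    ∀ (K : Type) [Field K] [NumberField K], Module.finrank ℚ K = n → Top K p := by
  induction n using Nat.strong_induction_on with
  | _ n ih =>
    intro K _ _ hn
    by_cases hN : DecomposableBy K {F | F ≠ ⊤}
    · exact top_of_decomposableBy hp hN fun F hF => ih _ (hn ▸ finrank_lt_of_ne_top hF) F rfl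
    · exact h K hN

theorem galois_of_indec {p : ℕ} (hp : p.Prime)
    (h : ∀ (K : Type) [Field K] [NumberField K], IsGalois ℚ K →
      ¬ DecomposableBy K {F | F ≠ ⊤ ∧ IsGalois ℚ F} → Top K p)
    (n : ℕ) :
    ∀ (K : Type) [Field K] [NumberField K], IsGalois ℚ K → Module.finrank ℚ K = n → Top K p := by
  induction n using Nat.strong_induction_on with
  | _ n ih =>
    intro K _ _ hG hn
    by_cases hN : DecomposableBy K {F | F ≠ ⊤ ∧ IsGalois ℚ F}
    · exact top_of_decomposableBy hp hN fun F hF =>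
        ih _ (hn ▸ finrank_lt_of_ne_top hF.1) F hF.2 rfl
    · exact h K hG hN

theorem main3 (p : ℕ) [hp : Fact p.Prime] :
    List.TFAE [
      ∀ (K : Type) [Field K] [NumberField K], Leopoldt K p,
      ∀ (K : Type) [Field K] [NumberField K], ¬ DecomposableBy K {F | F ≠ ⊤} → Leopoldt K p,
      ∀ (K : Type) [Field K] [NumberField K], IsGalois ℚ K →
        ¬ DecomposableBy K {F | F ≠ ⊤ ∧ IsGalois ℚ F} → Leopoldt K p] := by
  tfae_have 1 → 2 := fun h K _ _ _ => h K
  tfae_have 1 → 3 := fun h K _ _ _ _ => h K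
  tfae_have 2 → 1 := by
    intro h K _ _
    exact leopoldt_of_top (all_of_indec hp.out
      (fun K _ _ hN => top_of_leopoldt (h K hN)) _ K rfl)
  tfae_have 3 → 1 := by
    intro h K _ _
    obtain ⟨L, _, _, hG, ⟨f⟩⟩ := exists_galois K
    exact leopoldt_of_top (top_sub hp.out hG f (galois_of_indec hp.out
      (fun K _ _ hG hN => top_of_leopoldt (h K hG hN)) _ L hG rfl))
  tfae_finish

end Pool.Agent.TH613.LP
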