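import Pool.Agent.TH613.ZK.Poly

/-!
# Norm relations with subgroups in a family
-/

set_option autoImplicit false

namespace Pool.Agent.TH613.LP

open Pool.Agent.TH613.ZK

variable {A : Type} [Group A]

/-- the `ℚ`-span of the elements `a N_C b`, with `C` in the family `𝓕` -/
noncomputable def relIdeal (𝓕 : Subgroup A → Prop) : Submodule ℚ (MonoidAlgebra ℚ A) :=
  Submodule.span ℚ {x | ∃ (C : Subgroup A) (a b : A), 𝓕 C ∧
    x = MonoidAlgebra.single a 1 * normElt C * MonoidAlgebra.single b 1}

variable (A) in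
/-- `A` admits a norm relation with normal subgroups: `1 = ∑ c_i a_i N_{C_i} b_i` in `ℚ[A]`, with
rational `c_i`, `a_i, b_i ∈ A` and nontrivial normal subgroups `C_i`. -/
def HasNormalNormRelation : Prop :=
  (1 : MonoidAlgebra ℚ A) ∈ Submodule.span ℚ {x | ∃ (C : Subgroup A) (a b : A),
    (C.Normal ∧ C ≠ ⊥) ∧ x = MonoidAlgebra.single a 1 * normElt C * MonoidAlgebra.single b 1}

/-- A subgroup `B` of order `q r`, `q` and `r` primes, which is not cyclic gives a norm relation
with subgroups of `B`. -/
theorem relation_of_noncyclic [Finite A] {q r : ℕ} (hq : q.Prime) (hr : r.Prime) (B : Subgroup A)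
    (hB : Nat.card B = q * r) (hcyc : ¬ IsCyclic B) (𝓕 : Subgroup A → Prop)
    (h𝓕 : ∀ C ≤ B, C ≠ ⊥ → 𝓕 C) : 1 ∈ relIdeal 𝓕 := by
  classical
  have hfs : Finite (Subgroup A) := inferInstance
  set 𝒮 : Finset (Subgroup A) := (Set.toFinite {C : Subgroup A | C ≤ B ∧ (Nat.card C).Prime}).toFinset
    with h𝒮
  have hmem : ∀ C, C ∈ 𝒮 ↔ C ≤ B ∧ (Nat.card C).Prime := by
    intro C; rw [h𝒮]; simp
  -- nontrivial elements of `B` have prime order
  have hord : ∀ h ∈ B, h ≠ 1 → (orderOf h).Prime := by
    intro h hh h1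
    have hd : orderOf h ∣ q * r := by
      rw [← hB]
      have := orderOf_dvd_natCard (⟨h, hh⟩ : B)
      rwa [Subgroup.orderOf_mk] at this
    refine prime_order hq hr hd ?_ ?_
    · intro he
      exact h1 (orderOf_eq_one_iff.mp he)
    · intro he
      apply hcyc
      refine isCyclic_of_orderOf_eq_card (⟨h, hh⟩ : B) ?_
      rw [Subgroup.orderOf_mk, he, hB]
  -- a nontrivial `h ∈ B` lies in exactly one member of `𝒮`
  have huniq : ∀ h ∈ B, h ≠ 1 → ∀ C ∈ 𝒮, h ∈ C ↔ C = Subgroup.zpowers h := by
    intro h hh h1 C hC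
    rw [hmem] at hC
    constructor
    · intro hhC
      have hle : Subgroup.zpowers h ≤ C := by
        rw [Subgroup.zpowers_le]; exact hhC
      refine (Subgroup.eq_of_le_of_card_ge hle ?_).symm
      rw [Nat.card_zpowers]
      have hdvd : orderOf h ∣ Nat.card C := by
        rw [← Nat.card_zpowers]
        exact Subgroup.card_dvd_of_le hle
      rcases (Nat.dvd_prime hC.2).mp hdvd with he | he
      · exact absurd (orderOf_eq_one_iff.mp he) h1
      · exact he.ge
    · rintro rfl
      exact Subgroup.mem_zpowers h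
  have hz : ∀ h ∈ B, h ≠ 1 → Subgroup.zpowers h ∈ 𝒮 := by
    intro h hh h1
    rw [hmem]
    refine ⟨by rw [Subgroup.zpowers_le]; exact hh, ?_⟩
    rw [Nat.card_zpowers]
    exact hord h hh h1
  have hqr : 1 < q * r := lt_of_lt_of_le hq.one_lt (Nat.le_mul_of_pos_right q hr.pos)
  -- at least two members
  have hcard : 2 ≤ 𝒮.card := by
    have hB1 : 1 < Nat.card B := by rw [hB]; exact hqr
    obtain ⟨h, hh, h1⟩ : ∃ h ∈ B, h ≠ 1 := by
      by_contra hcon
      push Not at hcon
      have : B = ⊥ := by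
        rw [eq_bot_iff]
        intro x hx
        rw [Subgroup.mem_bot]
        exact hcon x hx
      rw [this] at hB1
      simp at hB1
    have hC := hz h hh h1
    obtain ⟨g, hg, hgC⟩ : ∃ g ∈ B, g ∉ Subgroup.zpowers h := by
      by_contra hcon
      push Not at hcon
      have hle : B ≤ Subgroup.zpowers h := hcon
      have he : Subgroup.zpowers h = B := le_antisymm (by rw [Subgroup.zpowers_le]; exact hh) hle
      apply hcyc
      rw [← he]
      infer_instance
    have hg1 : g ≠ 1 := by
      rintro rfl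
      exact hgC (one_mem _)
    have hD := hz g hg hg1
    have hne : Subgroup.zpowers h ≠ Subgroup.zpowers g := by
      intro he
      apply hgC
      rw [he]
      exact Subgroup.mem_zpowers g
    exact Finset.one_lt_card.mpr ⟨_, hC, _, hD, hne⟩
  have hm : ((𝒮.card : ℚ) - 1) ≠ 0 := by
    have : (2 : ℚ) ≤ 𝒮.card := by exact_mod_cast hcard
    intro h0
    linarith
  have key : ((𝒮.card : ℚ) - 1) • (1 : MonoidAlgebra ℚ A) = ∑ C ∈ 𝒮, normElt C - normElt B := by
    apply MonoidAlgebra.coeff_injective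
    ext h
    simp only [MonoidAlgebra.coeff_smul_apply, MonoidAlgebra.coeff_sub, MonoidAlgebra.coeff_sum,
      Finsupp.finsetSum_apply, Finsupp.coe_sub, Pi.sub_apply, coeff_normElt]
    rw [MonoidAlgebra.one_def, MonoidAlgebra.coeff_single, Finsupp.single_apply]
    by_cases h1 : h = 1
    · subst h1
      rw [if_pos rfl, if_pos (one_mem B)]
      have : ∑ C ∈ 𝒮, (if (1 : A) ∈ C then (1 : ℚ) else 0) = 𝒮.card := by
        rw [Finset.sum_congr rfl (fun C _ => if_pos (one_mem C))]
        simp
      rw [this]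
      simp
    · rw [if_neg (Ne.symm h1)]
      by_cases hh : h ∈ B
      · rw [if_pos hh]
        have : ∑ C ∈ 𝒮, (if h ∈ C then (1 : ℚ) else 0) = 1 := by
          rw [Finset.sum_eq_single (Subgroup.zpowers h)]
          · rw [if_pos (Subgroup.mem_zpowers h)]
          · intro C hC hne
            rw [if_neg]
            intro hhC
            exact hne ((huniq h hh h1 C hC).mp hhC)
          · intro hn
            exact absurd (hz h hh h1) hn
        rw [this]
        simp
      · rw [if_neg hh]
        have : ∑ C ∈ 𝒮, (if h ∈ C then (1 : ℚ) else 0) = 0 := by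
          apply Finset.sum_eq_zero
          intro C hC
          rw [if_neg]
          intro hhC
          exact hh (((hmem C).mp hC).1 hhC)
        rw [this]
        simp
  have hgen : ∀ C : Subgroup A, C ≤ B → C ≠ ⊥ → normElt C ∈ relIdeal 𝓕 := by
    intro C hCB hC
    apply Submodule.subset_span
    refine ⟨C, 1, 1, h𝓕 C hCB hC, ?_⟩
    rw [← MonoidAlgebra.one_def, one_mul, mul_one]
  have hne : ∀ C : Subgroup A, 1 < Nat.card C → C ≠ ⊥ := by
    intro C hC he
    rw [he] at hC
    simp at hC
  have e1 : (1 : MonoidAlgebra ℚ A) = ((𝒮.card : ℚ) - 1)⁻¹ •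
      (∑ C ∈ 𝒮, normElt C - normElt B) := by
    rw [← key, smul_smul, inv_mul_cancel₀ hm, one_smul]
  rw [e1]
  apply Submodule.smul_mem
  apply Submodule.sub_mem
  · apply Submodule.sum_mem
    intro C hC
    exact hgen C ((hmem C).mp hC).1 (hne C ((hmem C).mp hC).2.one_lt)
  · exact hgen B le_rfl (hne B (by rw [hB]; exact hqr))

/-- A central subgroup of order `q r` which is not cyclic gives a norm relation with normal
subgroups. -/
theorem hasNormalNormRelation [Finite A] {q r : ℕ} (hq : q.Prime) (hr : r.Prime) (B : Subgroup A)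
    (hZ : B ≤ Subgroup.center A) (hB : Nat.card B = q * r) (hcyc : ¬ IsCyclic B) :
    HasNormalNormRelation A := by
  refine relation_of_noncyclic hq hr B hB hcyc (fun C => C.Normal ∧ C ≠ ⊥) ?_
  intro C hC hne
  refine ⟨⟨fun x hx g => ?_⟩, hne⟩
  have h1 : x ∈ Subgroup.center A := hZ (hC hx)
  rw [Subgroup.mem_center_iff] at h1
  rw [h1 g, mul_inv_cancel_right]
  exact hx

end Pool.Agent.TH613.LP
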