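import Pool.Agent.TH613.LP.Abs
import Mathlib.NumberTheory.NumberField.Units.DirichletTheorem
import Mathlib.FieldTheory.Galois.Basic

/-!
# The topology defined by `p` on the units of a number field, and norm relations
-/

set_option autoImplicit false

namespace Pool.Agent.TH613.LP

open NumberField Pool.Agent.TH613.ZK

/-- the units congruent to `1` modulo `p ^ N` -/
def U (K : Type) [Field K] (p N : ℕ) : AddSubgroup (Additive (𝓞 K)ˣ) where
  carrier := {u | ((p : ℕ) : 𝓞 K) ^ N ∣ ((Additive.toMul u : (𝓞 K)ˣ) : 𝓞 K) - 1}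
  zero_mem' := by simp
  add_mem' := by
    intro u v hu hv
    obtain ⟨x, hx⟩ := hu
    obtain ⟨y, hy⟩ := hv
    refine ⟨((Additive.toMul u : (𝓞 K)ˣ) : 𝓞 K) * y + x, ?_⟩
    rw [toMul_add, Units.val_mul]
    have h1 : ((Additive.toMul u : (𝓞 K)ˣ) : 𝓞 K) = 1 + (p : 𝓞 K) ^ N * x := by rw [← hx]; ring
    have h2 : ((Additive.toMul v : (𝓞 K)ˣ) : 𝓞 K) = 1 + (p : 𝓞 K) ^ N * y := by rw [← hy]; ring
    rw [h1, h2]
    ring
  neg_mem' := by
    intro u hu
    obtain ⟨x, hx⟩ := hu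
    refine ⟨-(((Additive.toMul u : (𝓞 K)ˣ)⁻¹ : (𝓞 K)ˣ) : 𝓞 K) * x, ?_⟩
    rw [toMul_neg]
    have h1 : (((Additive.toMul u : (𝓞 K)ˣ)⁻¹ : (𝓞 K)ˣ) : 𝓞 K) *
        ((Additive.toMul u : (𝓞 K)ˣ) : 𝓞 K) = 1 := Units.inv_mul _
    linear_combination (-(((Additive.toMul u : (𝓞 K)ˣ)⁻¹ : (𝓞 K)ˣ) : 𝓞 K)) * hx + h1

theorem mem_U {K : Type} [Field K] {p N : ℕ} {u : Additive (𝓞 K)ˣ} :
    u ∈ U K p N ↔ ((p : ℕ) : 𝓞 K) ^ N ∣ ((Additive.toMul u : (𝓞 K)ˣ) : 𝓞 K) - 1 := Iff.rfl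

/-- the units which are `p ^ N`-th powers up to roots of unity -/
def T (K : Type) [Field K] (p N : ℕ) : AddSubgroup (Additive (𝓞 K)ˣ) :=
  tor (Additive (𝓞 K)ˣ) p N

/-- The topology on the units defined by the congruences modulo powers of `p` is finer than the
pro-`p` topology of the units modulo roots of unity: this is Leopoldt's conjecture for `K`, `p`. -/
def Top (K : Type) [Field K] (p : ℕ) : Prop :=
  ∀ N, ∃ k, ∀ u ∈ U K p k, u ∈ T K p N

/-- the map on units defined by a homomorphism of fields -/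
noncomputable def um {K L : Type} [Field K] [Field L] (f : K →+* L) :
    Additive (𝓞 K)ˣ →+ Additive (𝓞 L)ˣ :=
  MonoidHom.toAdditive (Units.map (RingOfIntegers.mapRingHom f : 𝓞 K →* 𝓞 L))

theorem um_apply {K L : Type} [Field K] [Field L] (f : K →+* L) (u : Additive (𝓞 K)ˣ) :
    (((Additive.toMul (um f u) : (𝓞 L)ˣ) : 𝓞 L) : L) =
      f (((Additive.toMul u : (𝓞 K)ˣ) : 𝓞 K) : K) := rfl

theorem um_coe {K L : Type} [Field K] [Field L] (f : K →+* L) (u : Additive (𝓞 K)ˣ) :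
    ((Additive.toMul (um f u) : (𝓞 L)ˣ) : 𝓞 L) =
      RingOfIntegers.mapRingHom f ((Additive.toMul u : (𝓞 K)ˣ) : 𝓞 K) := rfl

theorem unit_ext {K : Type} [Field K] {u v : Additive (𝓞 K)ˣ}
    (h : (((Additive.toMul u : (𝓞 K)ˣ) : 𝓞 K) : K) = (((Additive.toMul v : (𝓞 K)ˣ) : 𝓞 K) : K)) :
    u = v := by
  apply Additive.toMul.injective
  apply Units.ext
  exact RingOfIntegers.ext h

theorem um_U {K L : Type} [Field K] [Field L] (f : K →+* L) {p N : ℕ} {u : Additive (𝓞 K)ˣ}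
    (hu : u ∈ U K p N) : um f u ∈ U L p N := by
  rw [mem_U] at hu ⊢
  obtain ⟨x, hx⟩ := hu
  refine ⟨RingOfIntegers.mapRingHom f x, ?_⟩
  rw [um_coe, ← map_one (RingOfIntegers.mapRingHom f), ← map_sub, hx, map_mul, map_pow,
    map_natCast]

theorem um_T {K L : Type} [Field K] [Field L] (f : K →+* L) {p N : ℕ} {u : Additive (𝓞 K)ˣ}
    (hu : u ∈ T K p N) : um f u ∈ T L p N := tor_map (um f) hu

/-- the action of the automorphisms on the units -/
noncomputable def rho (K : Type) [Field K] [NumberField K] :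
    (K ≃ₐ[ℚ] K) →* Module.End ℤ (Additive (𝓞 K)ˣ) where
  toFun g := (um (g : K →+* K)).toIntLinearMap
  map_one' := LinearMap.ext fun _ => unit_ext rfl
  map_mul' _ _ := LinearMap.ext fun _ => unit_ext rfl

theorem rho_apply {K : Type} [Field K] [NumberField K] (g : K ≃ₐ[ℚ] K) (u : Additive (𝓞 K)ˣ) :
    rho K g u = um (g : K →+* K) u := rfl

section Descent

variable {K : Type} [Field K] [NumberField K] (C : Subgroup (K ≃ₐ[ℚ] K))

theorem descend (u : Additive (𝓞 K)ˣ) (hu : ∀ c ∈ C, rho K c u = u) :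
    ∃ v : Additive (𝓞 (IntermediateField.fixedField C))ˣ,
      um (algebraMap (IntermediateField.fixedField C) K) v = u := by
  have key : ∀ w : Additive (𝓞 K)ˣ, (∀ c ∈ C, rho K c w = w) →
      ∃ x : 𝓞 (IntermediateField.fixedField C),
        ((x : IntermediateField.fixedField C) : K) = (((Additive.toMul w : (𝓞 K)ˣ) : 𝓞 K) : K) := by
    intro w hw
    have hmem : (((Additive.toMul w : (𝓞 K)ˣ) : 𝓞 K) : K) ∈ IntermediateField.fixedField C := by
      rw [IntermediateField.mem_fixedField_iff]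
      intro c hc
      have h1 := hw c hc
      have h2 := um_apply ((c : K ≃ₐ[ℚ] K) : K →+* K) w
      rw [← rho_apply, h1] at h2
      exact h2.symm
    have hint : IsIntegral ℤ (⟨_, hmem⟩ : IntermediateField.fixedField C) := by
      rw [← isIntegral_algebraMap_iff
        (algebraMap (IntermediateField.fixedField C) K).injective]
      exact RingOfIntegers.isIntegral_coe ((Additive.toMul w : (𝓞 K)ˣ) : 𝓞 K)
    exact ⟨⟨⟨_, hmem⟩, hint⟩, rfl⟩
  obtain ⟨x, hx⟩ := key u hu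
  obtain ⟨y, hy⟩ := key (-u) (fun c hc => by rw [map_neg, hu c hc])
  have hxy : x * y = 1 := by
    apply RingOfIntegers.ext
    apply Subtype.ext
    have h1 : (((x * y : 𝓞 (IntermediateField.fixedField C)) : IntermediateField.fixedField C) : K)
        = ((x : IntermediateField.fixedField C) : K) * ((y : IntermediateField.fixedField C) : K) := by
      simp
    rw [h1, hx, hy]
    have h2 : ((Additive.toMul u : (𝓞 K)ˣ) : 𝓞 K) * ((Additive.toMul (-u) : (𝓞 K)ˣ) : 𝓞 K) = 1 := by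
      rw [toMul_neg]
      exact Units.mul_inv _
    have h3 := congrArg (fun z : 𝓞 K => (z : K)) h2
    simp only [map_mul, map_one] at h3 ⊢
    exact h3
  refine ⟨Additive.ofMul ⟨x, y, hxy, by rw [mul_comm]; exact hxy⟩, ?_⟩
  apply unit_ext
  rw [um_apply]
  exact hx

theorem descend_U' {F K : Type} [Field F] [Field K] [CharZero F] [CharZero K] (f : F →+* K)
    {p : ℕ} (hp : p.Prime) {k : ℕ} (v : Additive (𝓞 F)ˣ) (hv : um f v ∈ U K p k) :
    v ∈ U F p k := by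
  rw [mem_U] at hv ⊢
  obtain ⟨z, hz⟩ := hv
  have hp0 : ((p : F) ^ k) ≠ 0 := by
    apply pow_ne_zero
    exact_mod_cast hp.ne_zero
  have hp1 : ((p : K) ^ k) ≠ 0 := by
    apply pow_ne_zero
    exact_mod_cast hp.ne_zero
  obtain ⟨y, hy⟩ : ∃ y : F, y = ((((Additive.toMul v : (𝓞 F)ˣ) : 𝓞 F) : F) - 1) / (p : F) ^ k :=
    ⟨_, rfl⟩
  have hyz : f y = (z : K) := by
    have h1 := congrArg (fun t : 𝓞 K => (t : K)) hz
    simp only [map_sub, map_one, map_mul, map_pow, map_natCast] at h1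
    change f (((Additive.toMul v : (𝓞 F)ˣ) : 𝓞 F) : F) - 1 = (p : K) ^ k * (z : K) at h1
    rw [hy, map_div₀, map_sub, map_one, map_pow, map_natCast]
    rw [div_eq_iff hp1, mul_comm]
    exact h1
  have hint : IsIntegral ℤ y := by
    rw [← isIntegral_algHom_iff f.toIntAlgHom f.injective]
    change IsIntegral ℤ (f y)
    rw [hyz]
    exact RingOfIntegers.isIntegral_coe z
  refine ⟨⟨y, hint⟩, ?_⟩
  apply RingOfIntegers.ext
  simp only [map_sub, map_one, map_mul, map_pow, map_natCast]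
  change _ = (p : F) ^ k * y
  rw [hy, mul_div_cancel₀ _ hp0]

theorem norm_T {p : ℕ} (hp : p.Prime) (h : Top (IntermediateField.fixedField C) p) (N : ℕ) :
    ∃ k, ∀ u ∈ U K p k, ∑ᶠ c : C, rho K c u ∈ T K p N := by
  obtain ⟨k, hk⟩ := h N
  refine ⟨k, fun u hu => ?_⟩
  let _ := Fintype.ofFinite C
  have hmem : ∑ᶠ c : C, rho K c u ∈ U K p k := by
    rw [finsum_eq_sum_of_fintype]
    exact AddSubgroup.sum_mem _ (fun c _ => um_U _ hu)
  have hfix : ∀ d ∈ C, rho K d (∑ᶠ c : C, rho K c u) = ∑ᶠ c : C, rho K c u := by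
    intro d hd
    rw [finsum_eq_sum_of_fintype, map_sum]
    refine Fintype.sum_equiv (Equiv.mulLeft (⟨d, hd⟩ : C)) _ _ ?_
    intro c
    have : rho K ((Equiv.mulLeft (⟨d, hd⟩ : C)) c : K ≃ₐ[ℚ] K) = rho K d * rho K (c : K ≃ₐ[ℚ] K) := by
      rw [← map_mul]
      rfl
    rw [this]
    rfl
  obtain ⟨v, hv⟩ := descend C _ hfix
  rw [← hv] at hmem ⊢
  exact um_T _ (hk v (descend_U' _ hp v hmem))

end Descent

/-- The norm relation argument. -/
theorem top_of_relation {K : Type} [Field K] [NumberField K] {p : ℕ} (hp : p.Prime)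
    {𝓕 : Subgroup (K ≃ₐ[ℚ] K) → Prop} (h : 1 ∈ relIdeal 𝓕)
    (hC : ∀ C : Subgroup (K ≃ₐ[ℚ] K), 𝓕 C → Top (IntermediateField.fixedField C) p) :
    Top K p := by
  obtain ⟨m, hm, hmain⟩ := norm_argument (rho K) (U K p) (T K p)
    (fun i j hij u hu => by
      rw [mem_U] at hu ⊢
      exact dvd_trans (pow_dvd_pow _ hij) hu)
    (fun k a u hu => um_U _ hu) (fun N a u hu => um_T _ hu)
    (fun C hne N => norm_T C hp (hC C hne) N) h
  intro N
  obtain ⟨v, hv⟩ := remove_factor (M := Additive (𝓞 K)ˣ) hp hm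
  obtain ⟨k, hk⟩ := hmain (N + v)
  refine ⟨k, fun u hu => ?_⟩
  obtain ⟨t, w, e, k', hk', ht⟩ := hk u hu
  obtain ⟨t', w', e', hh⟩ := hv N u t w e ⟨k', hk', ht⟩
  exact ⟨t', w', e', hh⟩

end Pool.Agent.TH613.LP
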